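import Pool.Agent.BB.Combine
import Pool.Agent.LIFT.Average4
import Pool.Agent.LIFT.AvgPerm4

/-!
# Branch and bound with semidefinite relaxations for MAX-3-SAT needs the cost `exp (c n)`
-/

set_option autoImplicit false

open scoped BigOperators Matrix

namespace Pool.Agent.Results.MP_b6562f_lc.BranchAndBound

/-- A 3-clause on the variables `0, ..., n - 1`: a disjunction of three literals on distinct
variables. The literal `i` is true if the variable `var i` has the value `sign i`. -/
structure Clause (n : ℕ) where
  var : Fin 3 → Fin n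
  sign : Fin 3 → Bool
  distinct : Function.Injective var

/-- The clause is true at the assignment `x`. -/
def Clause.Sat {n : ℕ} (C : Clause n) (x : Fin n → Bool) : Prop :=
  ∃ i, x (C.var i) = C.sign i

/-- The clause after the renaming `π` of the variables, followed by the complementation of the
variables `j` with `z j = true`. -/
def Clause.rename {n : ℕ} (π : Equiv.Perm (Fin n)) (z : Fin n → Bool) (C : Clause n) :
    Clause n where
  var i := π (C.var i)
  sign i := xor (C.sign i) (z (π (C.var i)))
  distinct := π.injective.comp C.distinct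

/-- A 3-CNF formula: a finite sequence of 3-clauses. -/
structure Formula (n : ℕ) where
  len : ℕ
  clause : Fin len → Clause n

/-- The formula after the renaming `π` of the variables, followed by the complementation of the
variables `j` with `z j = true`. -/
def Formula.rename {n : ℕ} (π : Equiv.Perm (Fin n)) (z : Fin n → Bool) (Φ : Formula n) :
    Formula n where
  len := Φ.len
  clause j := (Φ.clause j).rename π z

/-- The value of the formula at `x`: the fraction of its clauses which are true at `x`. -/
noncomputable def Formula.value {n : ℕ} (Φ : Formula n) (x : Fin n → Bool) : ℝ :=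
  (Nat.card {j : Fin Φ.len // (Φ.clause j).Sat x} : ℝ) / Φ.len

/-- A semidefinite relaxation of MAX-3-SAT with `n` variables: its variables are a real
`size × size` matrix and `free` real numbers, subject to arbitrary affine equations (they define the
affine subspace `space`); every formula has an arbitrary affine objective function. -/
structure Relaxation (n : ℕ) where
  free : ℕ
  size : ℕ
  space : AffineSubspace ℝ ((Fin free → ℝ) × Matrix (Fin size) (Fin size) ℝ)
  obj : Formula n → ((Fin free → ℝ) × Matrix (Fin size) (Fin size) ℝ) →ᵃ[ℝ] ℝ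

/-- The feasible points: the equations hold and the matrix is positive semidefinite. -/
def Relaxation.feasible {n : ℕ} (R : Relaxation n) :
    Set ((Fin R.free → ℝ) × Matrix (Fin R.size) (Fin R.size) ℝ) :=
  {p | p ∈ R.space ∧ p.2.PosSemidef}

/-- The assignment `x` is represented in the relaxation: there is a feasible point at which the
objective function of every formula is the value of the formula at `x`. -/
def Relaxation.Represents {n : ℕ} (R : Relaxation n) (x : Fin n → Bool) : Prop :=
  ∃ p ∈ R.feasible, ∀ Φ, R.obj Φ p = Φ.value x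

/-- The relaxation certifies that the value of `Φ` is less than `θ` at all assignments: its
objective function is less than `θ` at all feasible points. -/
def Relaxation.Certifies {n : ℕ} (R : Relaxation n) (θ : ℝ) (Φ : Formula n) : Prop :=
  ∀ p ∈ R.feasible, R.obj Φ p < θ

/-- A partial assignment: `ρ v` is the value of the variable `v`, `none` if `v` has no value. -/
abbrev Partial (n : ℕ) : Type := Fin n → Option Bool

/-- The assignment `x` extends the partial assignment `ρ`. -/
def Extends {n : ℕ} (x : Fin n → Bool) (ρ : Partial n) : Prop :=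
  ∀ v, ρ v = none ∨ ρ v = some (x v)

/-- A scheme for MAX-3-SAT with `n` variables: a relaxation for every partial assignment. -/
abbrev Scheme (n : ℕ) : Type := Partial n → Relaxation n

/-- The assignment `x` is represented in the scheme: it is represented in the relaxations of all
partial assignments which it extends. -/
def SchemeRepresents {n : ℕ} (R : Scheme n) (x : Fin n → Bool) : Prop :=
  ∀ ρ, Extends x ρ → (R ρ).Represents x

/-- A search tree: the search stops at a `leaf`; a `branch v t₀ t₁` gives the variable `v` the value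
`false` and continues with `t₀`, and gives it the value `true` and continues with `t₁` (a value
which `v` already has is replaced, so that branching twice on a variable is useless). -/
inductive SearchTree (n : ℕ) : Type where
  | leaf : SearchTree n
  | branch (v : Fin n) (t₀ t₁ : SearchTree n) : SearchTree n

/-- The cost of the search which starts at the partial assignment `ρ`: the sum of `1 + size` over
the relaxations at the leaves. -/
def SearchTree.cost {n : ℕ} (R : Scheme n) : SearchTree n → Partial n → ℕ
  | .leaf, ρ => 1 + (R ρ).size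
  | .branch v t₀ t₁, ρ =>
    t₀.cost R (Function.update ρ v (some false)) + t₁.cost R (Function.update ρ v (some true))

/-- The search which starts at the partial assignment `ρ` certifies that the value of `Φ` is less
than `θ`: the relaxations at the leaves certify it. -/
def SearchTree.Certifies {n : ℕ} (R : Scheme n) (θ : ℝ) (Φ : Formula n) :
    SearchTree n → Partial n → Prop
  | .leaf, ρ => (R ρ).Certifies θ Φ
  | .branch v t₀ t₁, ρ => t₀.Certifies R θ Φ (Function.update ρ v (some false)) ∧
    t₁.Certifies R θ Φ (Function.update ρ v (some true))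

/-- The scheme certifies at a cost of at most `K` that the value of `Φ` is less than `θ`: some
search tree which starts at the empty partial assignment does it. -/
def SchemeCertifies {n : ℕ} (R : Scheme n) (K θ : ℝ) (Φ : Formula n) : Prop :=
  ∃ T : SearchTree n, (T.cost R fun _ => none : ℝ) ≤ K ∧ T.Certifies R θ Φ fun _ => none

open SDX

/-- the signs of the four clauses of the equation `y 0 + y 1 + y 2 = s` -/
def sgn (s : Bool) (k : Fin 4) : Fin 3 → Bool :=
  ![decide (k.val % 2 = 1), decide (k.val / 2 = 1),
    xor s (xor (decide (k.val % 2 = 1)) (decide (k.val / 2 = 1)))]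

theorem sgn_card (s : Bool) (y : Fin 3 → Bool) :
    ((Finset.univ : Finset (Fin 4)).filter fun k => ∃ i, y i = sgn s k i).card
      = 3 + if xor (y 0) (xor (y 1) (y 2)) = s then 1 else 0 := by
  revert s y
  decide

theorem prod_sg (y : Fin 3 → Bool) (s : Bool) :
    (∏ t, sg (y t) = sg s) ↔ xor (y 0) (xor (y 1) (y 2)) = s := by
  rw [Fin.prod_univ_three]
  cases y 0 <;> cases y 1 <;> cases y 2 <;> cases s <;> norm_num [sg]

/-- the formula of a system of equations -/
def xorFormula {n m M : ℕ} (V : Fin m ↪ Fin n) (A : Fin M → Fin 3 → Fin m) (s : Fin M → Bool)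
    (hA : ∀ e, Function.Injective (A e)) : Formula n where
  len := M * 4
  clause j :=
    { var := fun i => V (A (finProdFinEquiv.symm j).1 i)
      sign := sgn (s (finProdFinEquiv.symm j).1) (finProdFinEquiv.symm j).2
      distinct := V.injective.comp (hA _) }

theorem rename_sat {n : ℕ} (π : Equiv.Perm (Fin n)) (z : Fin n → Bool) (C : Clause n)
    (x : Fin n → Bool) :
    (C.rename π z).Sat x ↔ C.Sat fun v => xor (x (π v)) (z (π v)) := by
  simp only [Clause.Sat, Clause.rename]
  refine exists_congr fun i => ?_
  cases x (π (C.var i)) <;> cases C.sign i <;> cases z (π (C.var i)) <;> decide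

theorem rename_value {n : ℕ} (π : Equiv.Perm (Fin n)) (z : Fin n → Bool) (Φ : Formula n)
    (x : Fin n → Bool) :
    (Φ.rename π z).value x = Φ.value fun v => xor (x (π v)) (z (π v)) := by
  simp only [Formula.value, Formula.rename, rename_sat]

open Classical in
theorem xorFormula_value {n m M : ℕ} (hM : 0 < M) (V : Fin m ↪ Fin n)
    (A : Fin M → Fin 3 → Fin m) (s : Fin M → Bool) (hA : ∀ e, Function.Injective (A e))
    (x : Fin n → Bool) :
    (xorFormula V A s hA).value x = 3 / 4 + (((Finset.univ : Finset (Fin M)).filter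
      fun e => ∏ t, sg (x (V (A e t))) = sg (s e)).card : ℝ) / (4 * M) := by
  have hM' : (0 : ℝ) < M := by exact_mod_cast hM
  have h1 : Nat.card {j : Fin (M * 4) // ((xorFormula V A s hA).clause j).Sat x}
      = 3 * M + ((Finset.univ : Finset (Fin M)).filter
        fun e => ∏ t, sg (x (V (A e t))) = sg (s e)).card := by
    rw [Nat.card_eq_fintype_card, Fintype.card_subtype, Finset.card_filter,
      ← Equiv.sum_comp (finProdFinEquiv : Fin M × Fin 4 ≃ Fin (M * 4)), Fintype.sum_prod_type,
      Finset.card_filter, mul_comm 3 M]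
    have h2 : M * 3 = ∑ _e : Fin M, 3 := by
      rw [Finset.sum_const, Finset.card_univ, Fintype.card_fin, smul_eq_mul]
    rw [h2, ← Finset.sum_add_distrib]
    refine Finset.sum_congr rfl fun e _ => ?_
    have h3 := sgn_card (s e) (fun t => x (V (A e t)))
    rw [Finset.card_filter] at h3
    simp only [prod_sg (fun t => x (V (A e t))) (s e)]
    convert h3 using 2 with k
    simp only [xorFormula, Clause.Sat, Equiv.symm_apply_apply]
  rw [Formula.value]
  change ((Nat.card {j : Fin (M * 4) // ((xorFormula V A s hA).clause j).Sat x} : ℕ) : ℝ)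
    / ((M * 4 : ℕ) : ℝ) = _
  rw [h1]
  push_cast
  field_simp

open Classical in
/-- bookkeeping of averages -/
theorem avg_prod {Ω P Z : Type} [Fintype Ω] [Fintype P] [Fintype Z] (p : Ω → ℝ)
    (C : Ω → P → Z → Prop) (N₁ N₂ : ℝ) (h₁ : N₁ ≠ 0) (h₂ : N₂ ≠ 0) :
    ∑ π : P, ∑ ω : Ω × Z, (if C ω.1 π ω.2 then p ω.1 / N₂ else 0)
      = (∑ ω, p ω * (((Finset.univ : Finset (P × Z)).filter fun q => C ω q.1 q.2).card
          / (N₁ * N₂))) * N₁ := by
  rw [Finset.sum_comm, Fintype.sum_prod_type, Finset.sum_mul]
  refine Finset.sum_congr rfl fun ω _ => ?_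
  rw [← Finset.sum_boole, Fintype.sum_prod_type, Finset.sum_comm]
  have h3 : p ω * ((∑ x : P, ∑ y : Z, (if C ω x y then (1 : ℝ) else 0)) / (N₁ * N₂)) * N₁
      = ∑ x : P, ∑ y : Z, (if C ω x y then p ω / N₂ else 0) := by
    have h4 : p ω * ((∑ x : P, ∑ y : Z, (if C ω x y then (1 : ℝ) else 0)) / (N₁ * N₂)) * N₁
        = (p ω / N₂) * ∑ x : P, ∑ y : Z, (if C ω x y then (1 : ℝ) else 0) := by
      field_simp
    rw [h4, Finset.mul_sum]
    refine Finset.sum_congr rfl fun x _ => ?_
    rw [Finset.mul_sum]
    refine Finset.sum_congr rfl fun y _ => ?_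
    rw [mul_ite, mul_one, mul_zero]
  exact h3.symm

/-- the node of the tree, truncated as soon as `d` variables have values, to which `x` comes -/
def SearchTree.node {n : ℕ} (d : ℕ) (x : Fin n → Bool) : SearchTree n → Partial n → Partial n
  | .leaf, ρ => ρ
  | .branch v t₀ t₁, ρ => if d ≤ (BB.dom ρ).card then ρ else
      if x v then t₁.node d x (Function.update ρ v (some true))
      else t₀.node d x (Function.update ρ v (some false))

theorem extends_update {n : ℕ} {x : Fin n → Bool} {ρ : Partial n} (h : Extends x ρ) (v : Fin n)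
    {a : Bool} (ha : x v = a) : Extends x (Function.update ρ v (some a)) := by
  intro u
  by_cases hu : u = v
  · subst hu
    right
    rw [Function.update_self, ha]
  · rw [Function.update_of_ne hu]
    exact h u

theorem node_extends {n : ℕ} (d : ℕ) (x : Fin n → Bool) (T : SearchTree n) :
    ∀ ρ : Partial n, Extends x ρ → Extends x (T.node d x ρ) := by
  induction T with
  | leaf => exact fun ρ h => h
  | branch v t₀ t₁ ih₀ ih₁ =>
    intro ρ h
    rw [SearchTree.node]
    split_ifs with h1 h2
    · exact h
    · exact ih₁ _ (extends_update h v h2)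
    · exact ih₀ _ (extends_update h v (by simpa using h2))

theorem node_keeps {n : ℕ} (d : ℕ) (x : Fin n → Bool) (T : SearchTree n) :
    ∀ ρ : Partial n, Extends x ρ → ∀ v a, ρ v = some a → T.node d x ρ v = some a := by
  induction T with
  | leaf => exact fun ρ _ v a h => h
  | branch u t₀ t₁ ih₀ ih₁ =>
    intro ρ h v a hv
    have key : ∀ c, x u = c → Function.update ρ u (some c) v = some a := by
      intro c hc
      by_cases huv : v = u
      · subst huv
        rw [Function.update_self]
        rcases h v with h1 | h1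
        · rw [h1] at hv
          exact absurd hv (by simp)
        · rw [← hv, h1, hc]
      · rw [Function.update_of_ne huv]
        exact hv
    rw [SearchTree.node]
    split_ifs with h1 h2
    · exact hv
    · exact ih₁ _ (extends_update h u h2) v a (key true h2)
    · have h2' : x u = false := by simpa using h2
      exact ih₀ _ (extends_update h u h2') v a (key false h2')

theorem node_eq {n : ℕ} (d : ℕ) (x x' : Fin n → Bool) (T : SearchTree n) :
    ∀ ρ : Partial n, Extends x ρ → Extends x' (T.node d x ρ) → T.node d x' ρ = T.node d x ρ := by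
  induction T with
  | leaf => exact fun ρ _ _ => rfl
  | branch v t₀ t₁ ih₀ ih₁ =>
    intro ρ h h'
    rw [SearchTree.node] at h'
    rw [SearchTree.node, SearchTree.node]
    by_cases h1 : d ≤ (BB.dom ρ).card
    · rw [if_pos h1, if_pos h1]
    · rw [if_neg h1] at h' ⊢
      rw [if_neg h1]
      cases h2 : x v with
      | true =>
        rw [h2, if_pos rfl] at h'
        have h3 : x' v = true := by
          have h4 := node_keeps d x t₁ _ (extends_update h v h2) v true (Function.update_self _ _ _)
          rcases h' v with h5 | h5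
          · rw [h4] at h5
            exact absurd h5 (by simp)
          · rw [h4] at h5
            exact (Option.some.inj h5).symm
        rw [h3, if_pos rfl, if_pos rfl]
        exact ih₁ _ (extends_update h v h2) h'
      | false =>
        rw [h2, if_neg (by simp)] at h'
        have h3 : x' v = false := by
          have h4 := node_keeps d x t₀ _ (extends_update h v h2) v false
            (Function.update_self _ _ _)
          rcases h' v with h5 | h5
          · rw [h4] at h5
            exact absurd h5 (by simp)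
          · rw [h4] at h5
            exact (Option.some.inj h5).symm
        rw [h3, if_neg (by simp), if_neg (by simp)]
        exact ih₀ _ (extends_update h v h2) h'

theorem card_dom_update {n : ℕ} (ρ : Partial n) (v : Fin n) (a : Bool) :
    (BB.dom (Function.update ρ v (some a))).card ≤ (BB.dom ρ).card + 1 := by
  refine (Finset.card_le_card (t := insert v (BB.dom ρ)) fun u hu => ?_).trans
    (Finset.card_insert_le _ _)
  rw [Finset.mem_insert]
  by_cases huv : u = v
  · exact Or.inl huv
  · right
    rw [BB.mem_dom, Function.update_of_ne huv] at hu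
    rwa [BB.mem_dom]

theorem node_card {n : ℕ} (d : ℕ) (x : Fin n → Bool) (T : SearchTree n) :
    ∀ ρ : Partial n, (BB.dom ρ).card ≤ d → (BB.dom (T.node d x ρ)).card ≤ d := by
  induction T with
  | leaf => exact fun ρ h => h
  | branch v t₀ t₁ ih₀ ih₁ =>
    intro ρ h
    rw [SearchTree.node]
    split_ifs with h1 h2
    · exact h
    · exact ih₁ _ ((card_dom_update ρ v true).trans (by omega))
    · exact ih₀ _ ((card_dom_update ρ v false).trans (by omega))

theorem cost_pos {n : ℕ} (R : Scheme n) (T : SearchTree n) : ∀ ρ : Partial n, 1 ≤ T.cost R ρ := by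
  induction T with
  | leaf =>
    intro ρ
    rw [SearchTree.cost]
    omega
  | branch v t₀ t₁ ih₀ ih₁ =>
    intro ρ
    rw [SearchTree.cost]
    have := ih₀ (Function.update ρ v (some false))
    omega

open Classical in
theorem node_image {n : ℕ} (R : Scheme n) (d : ℕ) (T : SearchTree n) :
    ∀ ρ : Partial n,
      ((Finset.univ : Finset (Fin n → Bool)).image fun x => T.node d x ρ).card ≤ T.cost R ρ := by
  induction T with
  | leaf =>
    intro ρ
    refine (Finset.card_le_card (t := {ρ}) fun ρ' h => ?_).trans ?_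
    · obtain ⟨x, -, rfl⟩ := Finset.mem_image.1 h
      exact Finset.mem_singleton_self _
    · rw [Finset.card_singleton]
      exact cost_pos R _ ρ
  | branch v t₀ t₁ ih₀ ih₁ =>
    intro ρ
    by_cases h1 : d ≤ (BB.dom ρ).card
    · refine (Finset.card_le_card (t := {ρ}) fun ρ' h => ?_).trans ?_
      · obtain ⟨x, -, rfl⟩ := Finset.mem_image.1 h
        rw [SearchTree.node, if_pos h1]
        exact Finset.mem_singleton_self _
      · rw [Finset.card_singleton]
        exact cost_pos R _ ρ
    · refine (Finset.card_le_card (t := (Finset.univ.image fun x =>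
        t₀.node d x (Function.update ρ v (some false))) ∪ (Finset.univ.image fun x =>
        t₁.node d x (Function.update ρ v (some true)))) fun ρ' h => ?_).trans
          ((Finset.card_union_le _ _).trans (Nat.add_le_add (ih₀ _) (ih₁ _)))
      obtain ⟨x, -, rfl⟩ := Finset.mem_image.1 h
      rw [SearchTree.node, if_neg h1, Finset.mem_union]
      split_ifs
      · exact Or.inr (Finset.mem_image_of_mem _ (Finset.mem_univ x))
      · exact Or.inl (Finset.mem_image_of_mem _ (Finset.mem_univ x))

theorem node_certifies {n : ℕ} (R : Scheme n) (θ : ℝ) (Φ : Formula n) (d : ℕ) (x : Fin n → Bool)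
    (T : SearchTree n) : ∀ ρ : Partial n, T.Certifies R θ Φ ρ →
      d ≤ (BB.dom (T.node d x ρ)).card ∨
      ((R (T.node d x ρ)).Certifies θ Φ ∧ (R (T.node d x ρ)).size ≤ T.cost R ρ) := by
  induction T with
  | leaf =>
    intro ρ h
    refine Or.inr ⟨h, ?_⟩
    rw [SearchTree.cost]
    exact Nat.le_add_left _ _
  | branch v t₀ t₁ ih₀ ih₁ =>
    intro ρ h
    rw [SearchTree.node, SearchTree.cost]
    rw [SearchTree.Certifies] at h
    split_ifs with h1 h2
    · exact Or.inl h1
    · rcases ih₁ _ h.2 with h3 | ⟨h3, h4⟩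
      · exact Or.inl h3
      · exact Or.inr ⟨h3, h4.trans (Nat.le_add_left _ _)⟩
    · rcases ih₀ _ h.1 with h3 | ⟨h3, h4⟩
      · exact Or.inl h3
      · exact Or.inr ⟨h3, h4.trans (Nat.le_add_right _ _)⟩

open Classical in
/-- **Theorem.** Let `ε, η > 0`. There is `c > 0` such that for all large `n` there is a 3-CNF
formula `Φ` with `n` variables and at most `n` clauses with the following properties. Every
assignment satisfies at most a fraction `7 / 8 + ε` of the clauses. Let `R` be a random scheme for
MAX-3-SAT on `n` variables (a probability distribution `p` on schemes `R ω`). Then the probability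
that `R` represents a uniformly random assignment plus the probability that `R` certifies, at a cost
of at most `exp (c n)`, that the value of `Φ`, after a uniformly random renaming and complementation
of the variables, is less than `1 - exp (- c n)`, is less than `1 + η`. -/
theorem result (ε η : ℝ) (hε : 0 < ε) (hη : 0 < η) :
    ∃ c : ℝ, 0 < c ∧ ∃ n₀ : ℕ, ∀ n : ℕ, n₀ ≤ n → ∃ Φ : Formula n, Φ.len ≤ n ∧
      (∀ x, Φ.value x ≤ 7 / 8 + ε) ∧
      ∀ (Ω : Type) [Fintype Ω] (p : Ω → ℝ) (R : Ω → Scheme n),
      (∀ ω, 0 ≤ p ω) → ∑ ω, p ω = 1 →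
      ∑ ω, p ω * (((Finset.univ : Finset (Fin n → Bool)).filter fun x =>
          SchemeRepresents (R ω) x).card / (2 : ℝ) ^ n)
        + ∑ ω, p ω * (((Finset.univ : Finset (Equiv.Perm (Fin n) × (Fin n → Bool))).filter
          fun q => SchemeCertifies (R ω) (Real.exp (c * n)) (1 - Real.exp (-(c * n)))
            (Φ.rename q.1 q.2)).card / (n.factorial * (2 : ℝ) ^ n)) < 1 + η := by
  set γ : ℝ := min (η / 4) 1 with hγ
  have hγ0 : 0 < γ := lt_min (by positivity) one_pos
  have hγ1 : γ ≤ 1 := min_le_right _ _
  have hγη : γ ≤ η / 4 := min_le_left _ _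
  obtain ⟨c, b, hc, hb, n₀, hn⟩ := BB.final_core6 ε γ hε hγ0
  refine ⟨c, hc, n₀, fun n hn0 => ?_⟩
  obtain ⟨m, M, d₀, A, s, mu, P, γ', θ₁, ν, hm, hM, hmb, hnm, hMn, hA, hsat, hrow, hγ'0, hθ₁0,
    hθ₁γ, hν0, htot, hcount, hpos, hdeep, hno⟩ := hn n hn0
  have hM' : (0 : ℝ) < M := by exact_mod_cast hM
  -- the formula
  have hcard : Fintype.card (Fin m × Fin b) ≤ Fintype.card (Fin n) := by
    rw [Fintype.card_prod, Fintype.card_fin, Fintype.card_fin, Fintype.card_fin]
    exact hmb
  obtain ⟨e₀⟩ : Nonempty (Fin m × Fin b ↪ Fin n) := Function.Embedding.nonempty_of_card_le hcard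
  let V : Fin m ↪ Fin n :=
    ⟨fun j => e₀ (j, ⟨0, hb⟩), fun j j' h => (Prod.mk.inj (e₀.injective h)).1⟩
  refine ⟨xorFormula V A s hA, ?_, fun x => ?_, fun Ω _ p R hp hp1 => ?_⟩
  · change M * 4 ≤ n
    omega
  · rw [xorFormula_value hM]
    have h5 := hsat (fun j => x (V j))
    have h6 : (((Finset.univ : Finset (Fin M)).filter
      fun e => ∏ t, sg (x (V (A e t))) = sg (s e)).card : ℝ) / (4 * M) ≤ (1 / 2 + ε) / 4 := by
      rw [div_le_div_iff₀ (by positivity) (by norm_num)]
      calc _ ≤ ((1 / 2 + ε) * M) * 4 := by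
            refine mul_le_mul_of_nonneg_right ?_ (by norm_num)
            convert h5
        _ = _ := by ring
    linarith
  by_contra hcon
  push Not at hcon
  set θ : ℝ := 1 - Real.exp (-(c * n)) with hθ
  set K : ℝ := Real.exp (c * n) with hK
  set Φ : Formula n := xorFormula V A s hA with hΦ
  have hfac : (0 : ℝ) < n.factorial := by exact_mod_cast Nat.factorial_pos n
  have h2n : (0 : ℝ) < 2 ^ n := by positivity
  -- average over the translations
  set α : ℝ := ∑ ω, p ω * (((Finset.univ : Finset (Fin n → Bool)).filter fun x =>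
          SchemeRepresents (R ω) x).card / (2 : ℝ) ^ n) with hα
  let p' : Ω × (Fin n → Bool) → ℝ := fun ω => p ω.1 / 2 ^ n
  have hp' : ∀ ω, 0 ≤ p' ω := fun ω => div_nonneg (hp _) h2n.le
  have hp'1 : ∑ ω, p' ω = 1 := by
    rw [Fintype.sum_prod_type, ← hp1]
    refine Finset.sum_congr rfl fun ω _ => ?_
    simp only [p']
    rw [Finset.sum_const, Finset.card_univ, Fintype.card_fun, Fintype.card_bool, Fintype.card_fin,
      nsmul_eq_mul]
    push_cast
    field_simp
  -- the renaming
  obtain ⟨π₀, σ, hσ, hren⟩ := LIFT.avg_perm4 hb e₀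
    (fun π => ∑ ω : Ω × (Fin n → Bool),
      if SchemeCertifies (R ω.1) K θ (Φ.rename π ω.2) then p' ω else 0)
    (1 - α + η) (by
      refine (mul_le_mul_of_nonneg_right (by linarith) hfac.le).trans (le_of_eq
        (avg_prod p (fun ω π z => SchemeCertifies (R ω) K θ (Φ.rename π z)) n.factorial (2 ^ n)
          hfac.ne' h2n.ne').symm))
  set e : Fin m × Fin b ↪ Fin n := e₀.trans π₀.toEmbedding with he
  let xx : (Fin m × Fin b → Bool) → (Fin n → Bool) → Fin n → Bool := fun x z v =>
    xor (Function.extend e x (fun _ => false) v) (z v)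
  let 𝒳 : Ω × (Fin n → Bool) → Finset (Fin m × Fin b → Bool) := fun ω =>
    Finset.univ.filter fun x => SchemeRepresents (R ω.1) (xx x ω.2)
  let 𝒮 : Ω × (Fin n → Bool) → Finset (Fin m → Fin b) := fun ω => Finset.univ.filter fun S =>
    SchemeCertifies (R ω.1) K θ (Φ.rename (π₀ * σ S) ω.2)
  have hcardY : ((Fintype.card (Fin m → Fin b) : ℕ) : ℝ) = (b : ℝ) ^ m := by
    rw [Fintype.card_fun, Fintype.card_fin, Fintype.card_fin, Nat.cast_pow]
  have : Nonempty (Fin m → Fin b) := ⟨fun _ => ⟨0, hb⟩⟩
  have htrans : ∀ (x : Fin m × Fin b → Bool) (ω : Ω),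
      ((Finset.univ : Finset (Fin n → Bool)).filter fun y => SchemeRepresents (R ω) y).card
        = ((Finset.univ : Finset (Fin n → Bool)).filter fun y =>
          SchemeRepresents (R ω) (xx x y)).card := by
    intro x ω
    refine Finset.card_bij (fun (y : Fin n → Bool) _ => (fun v =>
      xor (Function.extend e x (fun _ => false) v) (y v) : Fin n → Bool)) ?_ ?_ ?_
    · intro y hy
      rw [Finset.mem_filter] at hy ⊢
      refine ⟨Finset.mem_univ _, ?_⟩
      have h12 : xx x (fun v => xor (Function.extend e x (fun _ => false) v) (y v)) = y := by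
        funext v
        simp only [xx]
        cases Function.extend e x (fun _ => false) v <;> cases y v <;> rfl
      rw [h12]
      exact hy.2
    · intro y _ y' _ h
      funext v
      have := congrFun h v
      revert this
      cases Function.extend e x (fun _ => false) v <;> cases y v <;> cases y' v <;> simp
    · intro y hy
      rw [Finset.mem_filter] at hy
      refine ⟨xx x y, ?_, ?_⟩
      · rw [Finset.mem_filter]
        exact ⟨Finset.mem_univ _, hy.2⟩
      · funext v
        simp only [xx]
        cases Function.extend e x (fun _ => false) v <;> cases y v <;> rfl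
  -- a good scheme
  have hW : (0 : ℝ) < (b : ℝ) ^ m * 2 ^ (m * b) := by
    have : (0 : ℝ) < b := by exact_mod_cast hb
    positivity
  obtain ⟨ω, -, hrect⟩ := LIFT.average4 p' (fun _ => (0 : ℝ)) hp' hp'1
    (fun _ => le_rfl) mu (2 ^ (m * b)) (by positivity) γ η α 1 0 hγ0 hγη hγ1 one_pos (by simp)
    (by
      rw [zero_div]
      positivity) hrow (by
      intro u v hu hv
      rw [hcardY]
      have h13 := hpos u v hu hv
      have h14 : θ₁ * ((b : ℝ) ^ m * 2 ^ (m * b)) ≤ γ / 2 * ((b : ℝ) ^ m * 2 ^ (m * b)) :=
        mul_le_mul_of_nonneg_right hθ₁γ hW.le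
      linarith) 𝒳 𝒮 (fun x => by
        refine le_of_eq ?_
        rw [hα, Fintype.sum_prod_type]
        refine Finset.sum_congr rfl fun ω _ => ?_
        simp only [𝒳, Finset.mem_filter, Finset.mem_univ, true_and, p']
        rw [← Finset.sum_filter, Finset.sum_const, nsmul_eq_mul, htrans x ω]
        ring) (by
        rw [hcardY]
        refine hren.trans (le_of_eq ?_)
        rw [Finset.sum_comm]
        refine Finset.sum_congr rfl fun ω _ => ?_
        rw [← Finset.sum_filter, Finset.sum_const, nsmul_eq_mul, mul_comm])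
  -- the search trees
  have hT : ∀ S, ∃ T : SearchTree n, S ∈ 𝒮 ω → (T.cost (R ω.1) fun _ => none : ℝ) ≤ K ∧
      T.Certifies (R ω.1) θ (Φ.rename (π₀ * σ S) ω.2) fun _ => none := by
    intro S
    by_cases hS : S ∈ 𝒮 ω
    · obtain ⟨T, h1, h2⟩ := (Finset.mem_filter.1 hS).2
      exact ⟨T, fun _ => ⟨h1, h2⟩⟩
    · exact ⟨SearchTree.leaf, fun h => absurd h hS⟩
  choose T hT using hT
  have hnone : ∀ x : Fin n → Bool, Extends x fun _ => none := fun x v => Or.inl rfl
  have hfinal := BB.combine mu (2 ^ (m * b)) θ₁ γ' ν P K (by positivity) hθ₁0 hγ'0 hν0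
    (Real.exp_pos _).le (𝒮 ω) (𝒳 ω) (fun S x => (T S).node d₀ (xx x ω.2) fun _ => none)
    (fun ρ x => Extends (xx x ω.2) ρ)
    (fun S _ x => node_extends d₀ _ (T S) _ (hnone _))
    (fun S _ x x' h => node_eq d₀ _ _ (T S) _ (hnone _) h)
    (Finset.univ.filter fun ρ => (BB.dom ρ).card ≤ d₀)
    (fun S _ x => Finset.mem_filter.2 ⟨Finset.mem_univ _, node_card d₀ _ (T S) _ (by
      simp [BB.dom])⟩)
    hcount (fun ρ => d₀ ≤ (BB.dom ρ).card) ?_ ?_ ?_ (by rw [hcardY]; exact hpos)
  · have h15 : (P * γ' + P * θ₁ + K * ν) * ((b : ℝ) ^ m * 2 ^ (m * b))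
        < γ * ((b : ℝ) ^ m * 2 ^ (m * b)) := mul_lt_mul_of_pos_right htot hW
    rw [hcardY] at hfinal hrect
    linarith
  · -- certified nodes
    intro ρ hρ hshallow 𝒮' 𝒳' h𝒮' h𝒳'
    rw [hcardY]
    rcases 𝒮'.eq_empty_or_nonempty with hemp | ⟨S₀, hS₀⟩
    · rw [hemp, Finset.sum_empty]
      positivity
    have hnode : ∀ S ∈ 𝒮', (R ω.1 ρ).Certifies θ (Φ.rename (π₀ * σ S) ω.2) ∧
        ((R ω.1 ρ).size : ℝ) ≤ K := by
      intro S hS
      obtain ⟨hS1, x, hx⟩ := h𝒮' S hS
      obtain ⟨h16, h17⟩ := hT S hS1
      rcases node_certifies (R ω.1) θ _ d₀ (xx x ω.2) (T S) _ h17 with h18 | ⟨h18, h19⟩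
      · rw [hx] at h18
        exact absurd h18 hshallow
      · rw [hx] at h18 h19
        refine ⟨h18, le_trans ?_ h16⟩
        exact_mod_cast h19
    have hrep : ∀ x ∈ 𝒳', ∃ q ∈ (R ω.1 ρ).feasible, ∀ Φ, (R ω.1 ρ).obj Φ q
        = Φ.value (xx x ω.2) := fun x hx =>
      (Finset.mem_filter.1 (h𝒳' x hx).1).2 ρ (h𝒳' x hx).2
    let pt : (Fin m × Fin b → Bool) →
        (Fin (R ω.1 ρ).free → ℝ) × Matrix (Fin (R ω.1 ρ).size) (Fin (R ω.1 ρ).size) ℝ :=
      fun x => if h : x ∈ 𝒳' then (hrep x h).choose else 0
    have hpt : ∀ x ∈ 𝒳', pt x ∈ (R ω.1 ρ).feasible ∧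
        ∀ Φ, (R ω.1 ρ).obj Φ (pt x) = Φ.value (xx x ω.2) := by
      intro x hx
      have := (hrep x hx).choose_spec
      simp only [pt, hx, dif_pos]
      exact this
    refine hno (R ω.1 ρ).size (Fin (R ω.1 ρ).free → ℝ) (R ω.1 ρ).space 𝒳' 𝒮' pt
      (fun S => (R ω.1 ρ).obj (Φ.rename (π₀ * σ S) ω.2)) (hnode S₀ hS₀).2
      (fun x hx => (hpt x hx).1) (fun S _ x hx => ?_) (fun S hS q hq hq2 => ?_)
    · rw [(hpt x hx).2, rename_value, hΦ, xorFormula_value hM]
      have h7 : ∀ e' t, xor (xx x ω.2 ((π₀ * σ S) (V (A e' t)))) (ω.2 ((π₀ * σ S) (V (A e' t))))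
          = rs S x (A e' t) := by
        intro e' t
        have h8 : (π₀ * σ S) (V (A e' t)) = e (A e' t, S (A e' t)) := by
          change π₀ (σ S (e₀ (A e' t, ⟨0, hb⟩))) = π₀ (e₀ (A e' t, S (A e' t)))
          rw [hσ]
        rw [h8]
        simp only [xx]
        rw [e.injective.extend_apply]
        change xor (xor (x (A e' t, S (A e' t))) _) _ = x (A e' t, S (A e' t))
        cases x (A e' t, S (A e' t)) <;> cases ω.2 (e (A e' t, S (A e' t))) <;> rfl
      simp only [h7]
    · exact (hnode S hS).1 q ⟨hq, hq2⟩
  · -- deep nodes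
    intro ρ hρ hd S 𝒳' h𝒳'
    rcases BB.agree_cube e hnm ω.2 ρ with h20 | ⟨F, a, hF1, hF2, hF⟩
    · have h21 : 𝒳' = ∅ := by
        rw [Finset.eq_empty_iff_forall_notMem]
        intro x hx
        exact h20 x ((h𝒳' x).1 hx)
      rw [h21, Finset.sum_empty]
      positivity
    · have h22 : (BB.dom ρ).card ≤ d₀ := (Finset.mem_filter.1 hρ).2
      refine le_trans (le_of_eq ?_) (hdeep F a S (hd.trans hF1) (hF2.trans h22))
      rw [← Finset.sum_subset (Finset.subset_univ 𝒳')]
      · refine Finset.sum_congr rfl fun x hx => ?_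
        rw [BB.ind, if_pos ((hF x).1 ((h𝒳' x).1 hx)), one_mul]
      · intro x _ hx
        rw [BB.ind, if_neg, zero_mul]
        intro h23
        exact hx ((h𝒳' x).2 ((hF x).2 h23))
  · -- the number of deep nodes
    intro S hS 𝒬 h𝒬
    refine le_trans ?_ (hT S hS).1
    have h24 := node_image (R ω.1) d₀ (T S) fun _ => none
    refine Nat.cast_le.2 (le_trans (Finset.card_le_card fun ρ hρ => ?_) h24)
    obtain ⟨-, x, rfl⟩ := h𝒬 ρ hρ
    exact Finset.mem_image_of_mem _ (Finset.mem_univ _)

end Pool.Agent.Results.MP_b6562f_lc.BranchAndBound
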