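import Pool.Agent.Helper11.DC.Final

/-!
# A cubic lower bound for the border determinantal complexity of the permanent
-/

set_option autoImplicit false

namespace Pool.Agent.Results.MP_381749_lc.CubicDC

open Matrix

/-- If the permanent of the generic `n × n` matrix is a limit (coefficient by coefficient) of
determinants of `m × m` matrices of affine linear forms over `ℂ`, then `m ≥ c n ^ 3`. -/
theorem result : ∃ c : ℝ, 0 < c ∧ ∀ n m : ℕ,
    (∀ ε : ℝ, 0 < ε → ∃ (A₀ : Matrix (Fin m) (Fin m) ℂ)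
      (A : Fin n × Fin n → Matrix (Fin m) (Fin m) ℂ), ∀ s : Fin n × Fin n →₀ ℕ,
        ‖MvPolynomial.coeff s (A₀.map MvPolynomial.C +
            ∑ v, (MvPolynomial.X v : MvPolynomial (Fin n × Fin n) ℂ) •
              (A v).map MvPolynomial.C).det -
          MvPolynomial.coeff s (Matrix.of fun i j : Fin n =>
            (MvPolynomial.X (i, j) : MvPolynomial (Fin n × Fin n) ℂ)).permanent‖ < ε) →
    c * (n : ℝ) ^ 3 ≤ m := by
  obtain ⟨c, hc, H⟩ := Pool.Agent.Helper11.DC.final
  refine ⟨c, hc, fun n m h => ?_⟩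
  rcases Nat.eq_zero_or_pos n with h0 | hn
  · subst h0
    simp
  refine H n m hn fun ε hε => ?_
  obtain ⟨A₀, A, hA⟩ := h ε hε
  refine ⟨_, ⟨A₀, A, fun x => ?_⟩, hA⟩
  rw [← MvPolynomial.coe_aeval_eq_eval, RingHom.coe_coe, AlgHom.map_det]
  congr 1
  ext i j
  simp [Matrix.sum_apply, AlgHom.mapMatrix_apply]

end Pool.Agent.Results.MP_381749_lc.CubicDC
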