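import Pool.Agent.Helper97.CD.Final

/-!
# A cubic lower bound for Pfaffians with entries of higher degree whose limit is the permanent
-/

set_option autoImplicit false

namespace Pool.Agent.Results.MP_381749_lc.CubicPfaffian

open MvPolynomial

/-- Let `1 ≤ δ ≤ max 1 (c n)`. If the permanent of the generic `n × n` matrix is a limit
(coefficient by coefficient) of Pfaffians of matrices of size `2 m` whose entries are polynomials
over `ℂ` of degree at most `δ`, then `m δ ≥ c n ^ 3`. -/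
theorem result : ∃ c : ℝ, 0 < c ∧ ∀ n m δ : ℕ, 1 ≤ δ → (δ : ℝ) ≤ max 1 (c * n) →
    (∀ ε : ℝ, 0 < ε → ∃ A : Matrix (Fin (2 * m)) (Fin (2 * m)) (MvPolynomial (Fin n × Fin n) ℂ),
      (∀ i j, (A i j).totalDegree ≤ δ) ∧ ∀ s : Fin n × Fin n →₀ ℕ,
        ‖coeff s (Pool.PF.pf m A) - coeff s (Matrix.of fun i j : Fin n =>
            (X (i, j) : MvPolynomial (Fin n × Fin n) ℂ)).permanent‖ < ε) →
    c * (n : ℝ) ^ 3 ≤ m * δ := by
  obtain ⟨c, hc, H⟩ := Pool.CD.final
  refine ⟨c, hc, fun n m δ hδ hδn h => H n m δ hδ hδn fun ε hε => ?_⟩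
  obtain ⟨A, hA, hc⟩ := h ε hε
  exact ⟨_, ⟨A, hA, rfl⟩, hc⟩

end Pool.Agent.Results.MP_381749_lc.CubicPfaffian
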