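import Pool.Agent.Helper97.DM.RandMain

/-!
# De Morgan formulas for divisibility of the permanent have almost cubic size in the input length
-/

set_option autoImplicit false

namespace Pool.Agent.Results.MP_381749_lc.DeMorganPermMod

open Pool.Agent.Helper97.DM

/-- Let `m ≥ 1` not be a power of two and `ε, δ > 0`. A randomised De Morgan formula (a probability
distribution `w` on the formulas `F ω`) which decides on every `n × n` matrix of zeros and ones, with
probability at least `1 / 2 + δ`, whether the permanent is divisible by `m`, has expected size at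
least `c n ^ (6 - ε)`. -/
theorem result (m : ℕ) (hm : m ≠ 0) (hm2 : ∀ k : ℕ, m ≠ 2 ^ k) (ε δ : ℝ) (hε : 0 < ε)
    (hδ : 0 < δ) : ∃ c : ℝ, 0 < c ∧ ∀ n : ℕ, 1 ≤ n → ∀ (Ω : Type) [Fintype Ω] (w : Ω → ℝ)
      (F : Ω → DFormula (Fin n × Fin n)), (∀ ω, 0 ≤ w ω) → ∑ ω, w ω = 1 →
      (∀ X : Fin n × Fin n → Bool, 1 / 2 + δ ≤ ∑ ω, w ω *
        (if (F ω).eval X = decide (m ∣ (Matrix.of fun i j : Fin n =>
          if X (i, j) = true then 1 else 0 : Matrix (Fin n) (Fin n) ℕ).permanent) then 1 else 0)) →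
      c * (n : ℝ) ^ (6 - ε) ≤ ∑ ω, w ω * ((F ω).size : ℝ) :=
  rand_main m hm hm2 ε δ hε hδ

end Pool.Agent.Results.MP_381749_lc.DeMorganPermMod
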