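import Pool.Agent.Helper97.Form.AlgMain

/-!
# Arithmetic formulas for the permanent have size at least `c n ^ 4 / log n`
-/

set_option autoImplicit false

namespace Pool.Agent.Results.MP_381749_lc.FormulaQuartic

open Pool.Agent.Helper71.Fml

/-- Every arithmetic formula (gates `+`, `*`, `/`; leaves labelled by field elements or
variables) over a field of characteristic different from two that computes the permanent of the
generic `n × n` matrix has at least `c n ^ 4 / log n` leaves labelled by variables. -/
theorem result : ∃ c : ℝ, 0 < c ∧ ∀ (K : Type) [Field K] (n : ℕ), 2 ≤ n →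
    (2 : K) ≠ 0 → ∀ φ : Formula K (Fin n × Fin n),
      φ.eval = algebraMap (MvPolynomial (Fin n × Fin n) K)
        (FractionRing (MvPolynomial (Fin n × Fin n) K))
        (Matrix.of fun i j : Fin n =>
          (MvPolynomial.X (i, j) : MvPolynomial (Fin n × Fin n) K)).permanent →
      c * (n : ℝ) ^ 4 / Real.log n ≤ φ.size :=
  Pool.Agent.Helper97.Form.main

end Pool.Agent.Results.MP_381749_lc.FormulaQuartic
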