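import Pool.Agent.LIFT.FinalCore4
import Pool.Agent.LIFT.Average4
import Pool.Agent.LIFT.AvgPerm4

/-!
# Randomised semidefinite relaxations of MAX-3-SAT have expected size `exp (c n)`
-/

set_option autoImplicit false

open scoped BigOperators Matrix

namespace Pool.Agent.Results.MP_b6562f_lc.MaxThreeSat

/-- A 3-clause on the variables `0, ..., n - 1`: a disjunction of three literals on distinct
variables. The literal `i` is true if the variable `var i` has the value `sign i`. -/
structure Clause (n : ℕ) where
  var : Fin 3 → Fin n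
  sign : Fin 3 → Bool
  distinct : Function.Injective var

/-- The clause is true at the assignment `x`. -/
def Clause.Sat {n : ℕ} (C : Clause n) (x : Fin n → Bool) : Prop :=
  ∃ i, x (C.var i) = C.sign i

/-- The clause after the renaming `π` of the variables, followed by the complementation of the
variables `j` with `z j = true`. -/
def Clause.rename {n : ℕ} (π : Equiv.Perm (Fin n)) (z : Fin n → Bool) (C : Clause n) :
    Clause n where
  var i := π (C.var i)
  sign i := xor (C.sign i) (z (π (C.var i)))
  distinct := π.injective.comp C.distinct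

/-- A 3-CNF formula: a finite sequence of 3-clauses. -/
structure Formula (n : ℕ) where
  len : ℕ
  clause : Fin len → Clause n

/-- The formula after the renaming `π` of the variables, followed by the complementation of the
variables `j` with `z j = true`. -/
def Formula.rename {n : ℕ} (π : Equiv.Perm (Fin n)) (z : Fin n → Bool) (Φ : Formula n) :
    Formula n where
  len := Φ.len
  clause j := (Φ.clause j).rename π z

/-- The value of the formula at `x`: the fraction of its clauses which are true at `x`. -/
noncomputable def Formula.value {n : ℕ} (Φ : Formula n) (x : Fin n → Bool) : ℝ :=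
  (Nat.card {j : Fin Φ.len // (Φ.clause j).Sat x} : ℝ) / Φ.len

/-- A semidefinite relaxation of MAX-3-SAT with `n` variables: its variables are a real
`size × size` matrix and `free` real numbers, subject to arbitrary affine equations (they define the
affine subspace `space`); every formula has an arbitrary affine objective function. -/
structure Relaxation (n : ℕ) where
  free : ℕ
  size : ℕ
  space : AffineSubspace ℝ ((Fin free → ℝ) × Matrix (Fin size) (Fin size) ℝ)
  obj : Formula n → ((Fin free → ℝ) × Matrix (Fin size) (Fin size) ℝ) →ᵃ[ℝ] ℝ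

/-- The feasible points: the equations hold and the matrix is positive semidefinite. -/
def Relaxation.feasible {n : ℕ} (R : Relaxation n) :
    Set ((Fin R.free → ℝ) × Matrix (Fin R.size) (Fin R.size) ℝ) :=
  {p | p ∈ R.space ∧ p.2.PosSemidef}

/-- The assignment `x` is represented in the relaxation: there is a feasible point at which the
objective function of every formula is the value of the formula at `x`. -/
def Relaxation.Represents {n : ℕ} (R : Relaxation n) (x : Fin n → Bool) : Prop :=
  ∃ p ∈ R.feasible, ∀ Φ, R.obj Φ p = Φ.value x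

/-- The relaxation certifies that the value of `Φ` is less than `θ` at all assignments: its
objective function is less than `θ` at all feasible points. -/
def Relaxation.Certifies {n : ℕ} (R : Relaxation n) (θ : ℝ) (Φ : Formula n) : Prop :=
  ∀ p ∈ R.feasible, R.obj Φ p < θ

open SDX

/-- the signs of the four clauses of the equation `y 0 + y 1 + y 2 = s` -/
def sgn (s : Bool) (k : Fin 4) : Fin 3 → Bool :=
  ![decide (k.val % 2 = 1), decide (k.val / 2 = 1),
    xor s (xor (decide (k.val % 2 = 1)) (decide (k.val / 2 = 1)))]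

theorem sgn_card (s : Bool) (y : Fin 3 → Bool) :
    ((Finset.univ : Finset (Fin 4)).filter fun k => ∃ i, y i = sgn s k i).card
      = 3 + if xor (y 0) (xor (y 1) (y 2)) = s then 1 else 0 := by
  revert s y
  decide

theorem prod_sg (y : Fin 3 → Bool) (s : Bool) :
    (∏ t, sg (y t) = sg s) ↔ xor (y 0) (xor (y 1) (y 2)) = s := by
  rw [Fin.prod_univ_three]
  cases y 0 <;> cases y 1 <;> cases y 2 <;> cases s <;> norm_num [sg]

/-- the formula of a system of equations -/
def xorFormula {n m M : ℕ} (V : Fin m ↪ Fin n) (A : Fin M → Fin 3 → Fin m) (s : Fin M → Bool)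
    (hA : ∀ e, Function.Injective (A e)) : Formula n where
  len := M * 4
  clause j :=
    { var := fun i => V (A (finProdFinEquiv.symm j).1 i)
      sign := sgn (s (finProdFinEquiv.symm j).1) (finProdFinEquiv.symm j).2
      distinct := V.injective.comp (hA _) }

theorem rename_sat {n : ℕ} (π : Equiv.Perm (Fin n)) (z : Fin n → Bool) (C : Clause n)
    (x : Fin n → Bool) :
    (C.rename π z).Sat x ↔ C.Sat fun v => xor (x (π v)) (z (π v)) := by
  simp only [Clause.Sat, Clause.rename]
  refine exists_congr fun i => ?_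
  cases x (π (C.var i)) <;> cases C.sign i <;> cases z (π (C.var i)) <;> decide

theorem rename_value {n : ℕ} (π : Equiv.Perm (Fin n)) (z : Fin n → Bool) (Φ : Formula n)
    (x : Fin n → Bool) :
    (Φ.rename π z).value x = Φ.value fun v => xor (x (π v)) (z (π v)) := by
  simp only [Formula.value, Formula.rename, rename_sat]

open Classical in
theorem xorFormula_value {n m M : ℕ} (hM : 0 < M) (V : Fin m ↪ Fin n)
    (A : Fin M → Fin 3 → Fin m) (s : Fin M → Bool) (hA : ∀ e, Function.Injective (A e))
    (x : Fin n → Bool) :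
    (xorFormula V A s hA).value x = 3 / 4 + (((Finset.univ : Finset (Fin M)).filter
      fun e => ∏ t, sg (x (V (A e t))) = sg (s e)).card : ℝ) / (4 * M) := by
  have hM' : (0 : ℝ) < M := by exact_mod_cast hM
  have h1 : Nat.card {j : Fin (M * 4) // ((xorFormula V A s hA).clause j).Sat x}
      = 3 * M + ((Finset.univ : Finset (Fin M)).filter
        fun e => ∏ t, sg (x (V (A e t))) = sg (s e)).card := by
    rw [Nat.card_eq_fintype_card, Fintype.card_subtype, Finset.card_filter,
      ← Equiv.sum_comp (finProdFinEquiv : Fin M × Fin 4 ≃ Fin (M * 4)), Fintype.sum_prod_type,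
      Finset.card_filter, mul_comm 3 M]
    have h2 : M * 3 = ∑ _e : Fin M, 3 := by
      rw [Finset.sum_const, Finset.card_univ, Fintype.card_fin, smul_eq_mul]
    rw [h2, ← Finset.sum_add_distrib]
    refine Finset.sum_congr rfl fun e _ => ?_
    have h3 := sgn_card (s e) (fun t => x (V (A e t)))
    rw [Finset.card_filter] at h3
    simp only [prod_sg (fun t => x (V (A e t))) (s e)]
    convert h3 using 2 with k
    simp only [xorFormula, Clause.Sat, Equiv.symm_apply_apply]
  rw [Formula.value]
  change ((Nat.card {j : Fin (M * 4) // ((xorFormula V A s hA).clause j).Sat x} : ℕ) : ℝ)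
    / ((M * 4 : ℕ) : ℝ) = _
  rw [h1]
  push_cast
  field_simp

open Classical in
/-- bookkeeping of averages -/
theorem avg_prod {Ω P Z : Type} [Fintype Ω] [Fintype P] [Fintype Z] (p : Ω → ℝ)
    (C : Ω → P → Z → Prop) (N₁ N₂ : ℝ) (h₁ : N₁ ≠ 0) (h₂ : N₂ ≠ 0) :
    ∑ π : P, ∑ ω : Ω × Z, (if C ω.1 π ω.2 then p ω.1 / N₂ else 0)
      = (∑ ω, p ω * (((Finset.univ : Finset (P × Z)).filter fun q => C ω q.1 q.2).card
          / (N₁ * N₂))) * N₁ := by
  rw [Finset.sum_comm, Fintype.sum_prod_type, Finset.sum_mul]
  refine Finset.sum_congr rfl fun ω _ => ?_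
  rw [← Finset.sum_boole, Fintype.sum_prod_type, Finset.sum_comm]
  have h3 : p ω * ((∑ x : P, ∑ y : Z, (if C ω x y then (1 : ℝ) else 0)) / (N₁ * N₂)) * N₁
      = ∑ x : P, ∑ y : Z, (if C ω x y then p ω / N₂ else 0) := by
    have h4 : p ω * ((∑ x : P, ∑ y : Z, (if C ω x y then (1 : ℝ) else 0)) / (N₁ * N₂)) * N₁
        = (p ω / N₂) * ∑ x : P, ∑ y : Z, (if C ω x y then (1 : ℝ) else 0) := by
      field_simp
    rw [h4, Finset.mul_sum]
    refine Finset.sum_congr rfl fun x _ => ?_
    rw [Finset.mul_sum]
    refine Finset.sum_congr rfl fun y _ => ?_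
    rw [mul_ite, mul_one, mul_zero]
  exact h3.symm

open Classical in
/-- **Theorem.** Let `ε, η > 0`. There is `c > 0` such that for all large `n` there is a 3-CNF
formula `Φ` with `n` variables and at most `n` clauses with the following properties. Every
assignment satisfies at most a fraction `7 / 8 + ε` of the clauses. Let `R` be a random semidefinite
relaxation of MAX-3-SAT on `n` variables (a probability distribution `p` on relaxations `R ω`) with
expected size less than `exp (c n)`. Then the probability that `R` represents a uniformly random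
assignment plus the probability that `R` certifies that the value of `Φ`, after a uniformly random
renaming and complementation of the variables, is less than `1 - exp (- c n)`, is less than
`1 + η`. -/
theorem result (ε η : ℝ) (hε : 0 < ε) (hη : 0 < η) :
    ∃ c : ℝ, 0 < c ∧ ∃ n₀ : ℕ, ∀ n : ℕ, n₀ ≤ n → ∃ Φ : Formula n, Φ.len ≤ n ∧
      (∀ x, Φ.value x ≤ 7 / 8 + ε) ∧
      ∀ (Ω : Type) [Fintype Ω] (p : Ω → ℝ) (R : Ω → Relaxation n),
      (∀ ω, 0 ≤ p ω) → ∑ ω, p ω = 1 →
      ∑ ω, p ω * ((R ω).size : ℝ) < Real.exp (c * n) →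
      ∑ ω, p ω * (((Finset.univ : Finset (Fin n → Bool)).filter fun x =>
          (R ω).Represents x).card / (2 : ℝ) ^ n)
        + ∑ ω, p ω * (((Finset.univ : Finset (Equiv.Perm (Fin n) × (Fin n → Bool))).filter
          fun q => (R ω).Certifies (1 - Real.exp (-(c * n))) (Φ.rename q.1 q.2)).card
            / (n.factorial * (2 : ℝ) ^ n)) < 1 + η := by
  set γ : ℝ := min (η / 4) 1 with hγ
  have hγ0 : 0 < γ := lt_min (by positivity) one_pos
  have hγ1 : γ ≤ 1 := min_le_right _ _
  have hγη : γ ≤ η / 4 := min_le_left _ _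
  obtain ⟨c, b, hc, hb, n₀, hn⟩ := LIFT.final_core4 ε γ hε hγ0 hγ1
  -- large sizes are unlikely
  obtain ⟨n₁, hn₁⟩ : ∃ n₁ : ℕ, ∀ n : ℕ, n₁ ≤ n → Real.exp (-(c / 2 * n)) ≤ η / 8 := by
    have h3 : Filter.Tendsto (fun n : ℕ => Real.exp (-(c / 2 * n))) Filter.atTop
        (nhds 0) := by
      refine Real.tendsto_exp_neg_atTop_nhds_zero.comp ?_
      exact Filter.Tendsto.const_mul_atTop (by positivity) tendsto_natCast_atTop_atTop
    have h4 := h3.eventually (ge_mem_nhds (by positivity : (0 : ℝ) < η / 8))
    exact Filter.eventually_atTop.1 h4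
  refine ⟨c / 2, by positivity, max n₀ n₁, fun n hn0 => ?_⟩
  obtain ⟨m, M, A, s, mu, hm, hM, hmb, hMn, hA, hsat, hrow, hpos, hno⟩ :=
    hn n ((le_max_left _ _).trans hn0)
  have hM' : (0 : ℝ) < M := by exact_mod_cast hM
  -- the formula
  have hcard : Fintype.card (Fin m × Fin b) ≤ Fintype.card (Fin n) := by
    rw [Fintype.card_prod, Fintype.card_fin, Fintype.card_fin, Fintype.card_fin]
    exact hmb
  obtain ⟨e₀⟩ : Nonempty (Fin m × Fin b ↪ Fin n) := Function.Embedding.nonempty_of_card_le hcard
  let V : Fin m ↪ Fin n :=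
    ⟨fun j => e₀ (j, ⟨0, hb⟩), fun j j' h => (Prod.mk.inj (e₀.injective h)).1⟩
  refine ⟨xorFormula V A s hA, ?_, fun x => ?_, fun Ω _ p R hp hp1 hsize => ?_⟩
  · change M * 4 ≤ n
    omega
  · rw [xorFormula_value hM]
    have h5 := hsat (fun j => x (V j))
    have h6 : (((Finset.univ : Finset (Fin M)).filter
      fun e => ∏ t, sg (x (V (A e t))) = sg (s e)).card : ℝ) / (4 * M) ≤ (1 / 2 + ε) / 4 := by
      rw [div_le_div_iff₀ (by positivity) (by norm_num)]
      calc _ ≤ ((1 / 2 + ε) * M) * 4 := by
            refine mul_le_mul_of_nonneg_right ?_ (by norm_num)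
            convert h5
        _ = _ := by ring
    linarith
  by_contra hcon
  push Not at hcon
  set θ : ℝ := 1 - Real.exp (-(c / 2 * n)) with hθ
  set Φ : Formula n := xorFormula V A s hA with hΦ
  have hfac : (0 : ℝ) < n.factorial := by exact_mod_cast Nat.factorial_pos n
  have h2n : (0 : ℝ) < 2 ^ n := by positivity
  -- average over the translations
  set α : ℝ := ∑ ω, p ω * (((Finset.univ : Finset (Fin n → Bool)).filter fun x =>
          (R ω).Represents x).card / (2 : ℝ) ^ n) with hα
  let p' : Ω × (Fin n → Bool) → ℝ := fun ω => p ω.1 / 2 ^ n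
  have hp' : ∀ ω, 0 ≤ p' ω := fun ω => div_nonneg (hp _) h2n.le
  have hsum : ∀ g : Ω → ℝ, ∑ ω : Ω × (Fin n → Bool), p' ω * g ω.1 = ∑ ω, p ω * g ω := by
    intro g
    rw [Fintype.sum_prod_type]
    refine Finset.sum_congr rfl fun ω _ => ?_
    simp only [p']
    rw [Finset.sum_const, Finset.card_univ, Fintype.card_fun, Fintype.card_bool, Fintype.card_fin,
      nsmul_eq_mul]
    push_cast
    field_simp
  have hp'1 : ∑ ω, p' ω = 1 := by
    have := hsum fun _ => 1
    simp only [mul_one] at this
    rw [this, hp1]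
  -- the renaming
  obtain ⟨π₀, σ, hσ, hren⟩ := LIFT.avg_perm4 hb e₀
    (fun π => ∑ ω : Ω × (Fin n → Bool),
      if (R ω.1).Certifies θ (Φ.rename π ω.2) then p' ω else 0)
    (1 - α + η) (by
      refine (mul_le_mul_of_nonneg_right (by linarith) hfac.le).trans (le_of_eq
        (avg_prod p (fun ω π z => (R ω).Certifies θ (Φ.rename π z)) n.factorial (2 ^ n)
          hfac.ne' h2n.ne').symm))
  set e : Fin m × Fin b ↪ Fin n := e₀.trans π₀.toEmbedding with he
  let xx : (Fin m × Fin b → Bool) → (Fin n → Bool) → Fin n → Bool := fun x z v =>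
    xor (Function.extend e x (fun _ => false) v) (z v)
  let 𝒳 : Ω × (Fin n → Bool) → Finset (Fin m × Fin b → Bool) := fun ω =>
    Finset.univ.filter fun x => (R ω.1).Represents (xx x ω.2)
  let 𝒮 : Ω × (Fin n → Bool) → Finset (Fin m → Fin b) := fun ω => Finset.univ.filter fun S =>
    (R ω.1).Certifies θ (Φ.rename (π₀ * σ S) ω.2)
  have hcardY : ((Fintype.card (Fin m → Fin b) : ℕ) : ℝ) = (b : ℝ) ^ m := by
    rw [Fintype.card_fun, Fintype.card_fin, Fintype.card_fin, Nat.cast_pow]
  have : Nonempty (Fin m → Fin b) := ⟨fun _ => ⟨0, hb⟩⟩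
  have htrans : ∀ (x : Fin m × Fin b → Bool) (ω : Ω),
      ((Finset.univ : Finset (Fin n → Bool)).filter fun y => (R ω).Represents y).card
        = ((Finset.univ : Finset (Fin n → Bool)).filter fun y =>
          (R ω).Represents (xx x y)).card := by
    intro x ω
    refine Finset.card_bij (fun (y : Fin n → Bool) _ => (fun v =>
      xor (Function.extend e x (fun _ => false) v) (y v) : Fin n → Bool)) ?_ ?_ ?_
    · intro y hy
      rw [Finset.mem_filter] at hy ⊢
      refine ⟨Finset.mem_univ _, ?_⟩
      have h12 : xx x (fun v => xor (Function.extend e x (fun _ => false) v) (y v)) = y := by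
        funext v
        simp only [xx]
        cases Function.extend e x (fun _ => false) v <;> cases y v <;> rfl
      rw [h12]
      exact hy.2
    · intro y _ y' _ h
      funext v
      have := congrFun h v
      revert this
      cases Function.extend e x (fun _ => false) v <;> cases y v <;> cases y' v <;> simp
    · intro y hy
      rw [Finset.mem_filter] at hy
      refine ⟨xx x y, ?_, ?_⟩
      · rw [Finset.mem_filter]
        exact ⟨Finset.mem_univ _, hy.2⟩
      · funext v
        simp only [xx]
        cases Function.extend e x (fun _ => false) v <;> cases y v <;> rfl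
  -- a good relaxation
  obtain ⟨ω, hsmall, hrect⟩ := LIFT.average4 p' (fun ω => ((R ω.1).size : ℝ)) hp' hp'1
    (fun ω => Nat.cast_nonneg _) mu (2 ^ (m * b)) (by positivity) γ η α (Real.exp (c * n))
    (Real.exp (c / 2 * n)) hγ0 hγη hγ1 (Real.exp_pos _) (by
      rw [hsum fun ω => ((R ω).size : ℝ)]
      exact hsize.le) (by
      refine le_trans (le_of_eq ?_) (hn₁ n ((le_max_right _ _).trans hn0))
      rw [← Real.exp_sub]
      congr 1
      ring) hrow (by
      rw [hcardY]
      exact hpos) 𝒳 𝒮 (fun x => by
        refine le_of_eq ?_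
        rw [hα, Fintype.sum_prod_type]
        refine Finset.sum_congr rfl fun ω _ => ?_
        simp only [𝒳, Finset.mem_filter, Finset.mem_univ, true_and, p']
        rw [← Finset.sum_filter, Finset.sum_const, nsmul_eq_mul, htrans x ω]
        ring) (by
        rw [hcardY]
        refine hren.trans (le_of_eq ?_)
        rw [Finset.sum_comm]
        refine Finset.sum_congr rfl fun ω _ => ?_
        rw [← Finset.sum_filter, Finset.sum_const, nsmul_eq_mul, mul_comm])
  rw [hcardY] at hrect
  have hrep : ∀ x ∈ 𝒳 ω, ∃ q ∈ (R ω.1).feasible, ∀ Φ, (R ω.1).obj Φ q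
      = Φ.value (xx x ω.2) := fun x hx => (Finset.mem_filter.1 hx).2
  let pt : (Fin m × Fin b → Bool) →
      (Fin (R ω.1).free → ℝ) × Matrix (Fin (R ω.1).size) (Fin (R ω.1).size) ℝ :=
    fun x => if h : x ∈ 𝒳 ω then (hrep x h).choose else 0
  have hpt : ∀ x ∈ 𝒳 ω, pt x ∈ (R ω.1).feasible ∧
      ∀ Φ, (R ω.1).obj Φ (pt x) = Φ.value (xx x ω.2) := by
    intro x hx
    have := (hrep x hx).choose_spec
    simp only [pt, hx, dif_pos]
    exact this
  refine hno (R ω.1).size (Fin (R ω.1).free → ℝ) (R ω.1).space (𝒳 ω) (𝒮 ω) pt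
    (fun S => (R ω.1).obj (Φ.rename (π₀ * σ S) ω.2)) hsmall hrect
    (fun x hx => (hpt x hx).1) (fun S _ x hx => ?_) (fun S hS q hq hq2 => ?_)
  · rw [(hpt x hx).2, rename_value, hΦ, xorFormula_value hM]
    have h7 : ∀ e' t, xor (xx x ω.2 ((π₀ * σ S) (V (A e' t)))) (ω.2 ((π₀ * σ S) (V (A e' t))))
        = rs S x (A e' t) := by
      intro e' t
      have h8 : (π₀ * σ S) (V (A e' t)) = e (A e' t, S (A e' t)) := by
        change π₀ (σ S (e₀ (A e' t, ⟨0, hb⟩))) = π₀ (e₀ (A e' t, S (A e' t)))
        rw [hσ]
      rw [h8]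
      simp only [xx]
      rw [e.injective.extend_apply]
      change xor (xor (x (A e' t, S (A e' t))) _) _ = x (A e' t, S (A e' t))
      cases x (A e' t, S (A e' t)) <;> cases ω.2 (e (A e' t, S (A e' t))) <;> rfl
    simp only [h7]
  · have h9 : (R ω.1).obj (Φ.rename (π₀ * σ S) ω.2) q < θ :=
      (Finset.mem_filter.1 hS).2 q ⟨hq, hq2⟩
    have h10 : 0 ≤ c / 2 * (n : ℝ) := by positivity
    have h11 : Real.exp (-(c * n)) ≤ Real.exp (-(c / 2 * n)) :=
      Real.exp_le_exp.2 (by linarith)
    linarith

end Pool.Agent.Results.MP_b6562f_lc.MaxThreeSat
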