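import Pool.Agent.BWD.VFinal

/-!
# Bounded width, type `D`: skew-hermitian forms over quaternion algebras, `K = ℚ`

Let `m ≥ 3`, `N ≥ 1`, `R = ℤ[1/N]` and let `Λ` be an Azumaya `R`-algebra of degree two without zero
divisors, with its canonical involution. Let `A` be a square matrix over `Λ` with
`D = A - Aᴴ` invertible and let `G` be the isometry group of the even unimodular skew-hermitian
form `H^m ⊥ D` on `Λ^(2m+s)`, a group of type `D_(2m+s)`. There are one subgroup `E` of `G` and one
number `L` such that `⟨U_P, U_P⁻⟩ = E = (U_P U_P⁻)^L` for all pairs of opposite standard parabolic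
subgroups of `G` and all their conjugates by elements of `G`.

* `BW.IsQuaternionAzumaya N R Λ`: `Λ` is free of rank four over `R = ℤ[1/N]` and its fibre at every
  prime `p` not dividing `N` is the matrix algebra `M₂(𝔽_p)`.
* `BWC.isom B`: the invertible matrices `g` with `gᴴ B g = B`.
* `BWC.JG (-1) (Fin m) D`: the Gram matrix of `H^m ⊥ D`.
* `BWC.UF (-1) f D`: the isometries `X` with `X i j = δ i j` unless `w i < w j`, where `w` is `f` on
  the first `m` basis vectors, `-f` on the next `m` and `0` on the last ones: the unipotent radical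
  of the standard parabolic subgroup of the weights `f`; `BWC.UF (-1) (-f) D` is the opposite one.
* `BWC.VD.UFc g (-1) f D` is its conjugate by `g`.

Proof. In a product of infinitely many algebras (a family of isometries at once) `V₀` is removed
vector by vector, then hyperbolic planes are removed until two are left; there the second column is
completed to a matrix of reduced norm one, which is elementary; what is left is an element of
`GL₂(Λ)` in the Levi subgroup, and the units of `R` modulo squares are finite in number.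
-/

namespace Pool.Agent.Results.MP_5f9d62_al.QuaternionTypeD

open Matrix Pointwise BW BWC

theorem result : ∀ m : ℕ, 3 ≤ m → ∀ s N : ℕ, N ≠ 0 → ∀ (R Λ : Type) [CommRing R]
    [IsLocalization.Away (N : ℤ) R] [Ring Λ] [NoZeroDivisors Λ] [StarRing Λ] [Algebra R Λ],
    IsQuaternionAzumaya N R Λ → (∀ x : Λ, ∃ t : R, x + star x = algebraMap R Λ t) →
    ∀ A : Matrix (Fin s) (Fin s) Λ, IsUnit (A - Aᴴ) →
    ∃ (E : Subgroup (Matrix ((Fin m ⊕ Fin m) ⊕ Fin s) ((Fin m ⊕ Fin m) ⊕ Fin s) Λ)ˣ) (L : ℕ),
      ∀ g ∈ isom (JG (-1) (Fin m) (A - Aᴴ)), ∀ f : Fin m → ℤ, f ≠ 0 →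
        VD.UFc g (-1) f (A - Aᴴ) ⊔ VD.UFc g (-1) (-f) (A - Aᴴ) = E ∧
        ((VD.UFc g (-1) f (A - Aᴴ) :
            Set (Matrix ((Fin m ⊕ Fin m) ⊕ Fin s) ((Fin m ⊕ Fin m) ⊕ Fin s) Λ)ˣ) *
          (VD.UFc g (-1) (-f) (A - Aᴴ) :
            Set (Matrix ((Fin m ⊕ Fin m) ⊕ Fin s) ((Fin m ⊕ Fin m) ⊕ Fin s) Λ)ˣ)) ^ L =
          (E : Set (Matrix ((Fin m ⊕ Fin m) ⊕ Fin s) ((Fin m ⊕ Fin m) ⊕ Fin s) Λ)ˣ) :=
  fun m hm s N hN R Λ _ _ _ _ _ _ haz hst A hD => VD.main m hm s N hN R Λ haz hst A hD

end Pool.Agent.Results.MP_5f9d62_al.QuaternionTypeD
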