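import Pool.Agent.AV.Core8
import Pool.Agent.AV.Value
import Pool.Agent.AV.Place
import Pool.Agent.BB.Combine
import Pool.Agent.LIFT.Average4
import Pool.Agent.LIFT.AvgPerm4

/-!
# Branch and cut with semidefinite relaxations does not refute random 3-CNF formulas
-/

set_option autoImplicit false

open scoped BigOperators Matrix

namespace Pool.Agent.Results.MP_b6562f_lc.RandomThreeSat

/-- A 3-clause on the variables `0, ..., n - 1`: a disjunction of three literals on distinct
variables. The literal `i` is true if the variable `var i` has the value `sign i`. -/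
structure Clause (n : ℕ) where
  var : Fin 3 → Fin n
  sign : Fin 3 → Bool
  distinct : Function.Injective var

/-- The clause is true at the assignment `x`. -/
def Clause.Sat {n : ℕ} (C : Clause n) (x : Fin n → Bool) : Prop :=
  ∃ i, x (C.var i) = C.sign i

/-- A clause on `m` variables, placed on `n` variables: the variable `j` becomes `f j`, and then the
variables `v` with `z v = true` are complemented. -/
def Clause.place {m n : ℕ} (f : Fin m ↪ Fin n) (z : Fin n → Bool) (C : Clause m) : Clause n where
  var i := f (C.var i)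
  sign i := xor (C.sign i) (z (f (C.var i)))
  distinct := f.injective.comp C.distinct

/-- A 3-CNF formula: a finite sequence of 3-clauses. -/
structure Formula (n : ℕ) where
  len : ℕ
  clause : Fin len → Clause n

/-- A formula on `m` variables, placed on `n` variables: the variable `j` becomes `f j`, and then
the variables `v` with `z v = true` are complemented. -/
def Formula.place {m n : ℕ} (f : Fin m ↪ Fin n) (z : Fin n → Bool) (Φ : Formula m) :
    Formula n where
  len := Φ.len
  clause j := (Φ.clause j).place f z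

/-- The value of the formula at `x`: the fraction of its clauses which are true at `x`. -/
noncomputable def Formula.value {n : ℕ} (Φ : Formula n) (x : Fin n → Bool) : ℝ :=
  (Nat.card {j : Fin Φ.len // (Φ.clause j).Sat x} : ℝ) / Φ.len

/-- A semidefinite relaxation of 3-SAT with `n` variables: its variables are a real `size × size`
matrix and `free` real numbers, subject to arbitrary affine equations (they define the affine
subspace `space`). Every formula has an arbitrary affine objective function, and every set of clauses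
has `K` arbitrary affine functions, its cuts. -/
structure Relaxation (n K : ℕ) where
  free : ℕ
  size : ℕ
  space : AffineSubspace ℝ ((Fin free → ℝ) × Matrix (Fin size) (Fin size) ℝ)
  obj : Formula n → ((Fin free → ℝ) × Matrix (Fin size) (Fin size) ℝ) →ᵃ[ℝ] ℝ
  cut : Set (Clause n) → Fin K → ((Fin free → ℝ) × Matrix (Fin size) (Fin size) ℝ) →ᵃ[ℝ] ℝ

/-- The feasible points: the equations hold and the matrix is positive semidefinite. -/
def Relaxation.feasible {n K : ℕ} (R : Relaxation n K) :
    Set ((Fin R.free → ℝ) × Matrix (Fin R.size) (Fin R.size) ℝ) :=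
  {p | p ∈ R.space ∧ p.2.PosSemidef}

/-- The assignment `x` is represented in the relaxation: there is a feasible point at which the
objective function of every formula is the value of the formula at `x`, all cuts have absolute value
at most one, and the cuts of a set of clauses which are all true at `x` are at most zero. -/
def Relaxation.Represents {n K : ℕ} (R : Relaxation n K) (x : Fin n → Bool) : Prop :=
  ∃ p ∈ R.feasible, (∀ Φ, R.obj Φ p = Φ.value x) ∧
    ∀ Ψ k, |R.cut Ψ k p| ≤ 1 ∧ ((∀ C ∈ Ψ, C.Sat x) → R.cut Ψ k p ≤ 0)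

/-- The relaxation refutes `Φ` with the parameter `h`: there is no feasible point at which the
objective function of `Φ` is at least `1 - exp (- h)` and the cuts of all sets of at most `h` clauses
of `Φ` are at most `exp (- h)`. -/
def Relaxation.Refutes {n K : ℕ} (R : Relaxation n K) (h : ℝ) (Φ : Formula n) : Prop :=
  ∀ p ∈ R.feasible, R.obj Φ p < 1 - Real.exp (-h) ∨
    ∃ T : Finset (Fin Φ.len), (T.card : ℝ) ≤ h ∧ ∃ k, Real.exp (-h) < R.cut (Φ.clause '' T) k p

/-- A partial assignment: `ρ v` is the value of the variable `v`, `none` if `v` has no value. -/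
abbrev Partial (n : ℕ) : Type := Fin n → Option Bool

/-- The assignment `x` extends the partial assignment `ρ`. -/
def Extends {n : ℕ} (x : Fin n → Bool) (ρ : Partial n) : Prop :=
  ∀ v, ρ v = none ∨ ρ v = some (x v)

/-- A scheme for 3-SAT with `n` variables: for every partial assignment `ρ` a list of `J`
relaxations `R ρ j`. -/
abbrev Scheme (n J K : ℕ) : Type := Partial n → Fin J → Relaxation n K

/-- The assignment `x` is represented in the scheme: it is represented in all the relaxations of all
the partial assignments which it extends. -/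
def SchemeRepresents {n J K : ℕ} (R : Scheme n J K) (x : Fin n → Bool) : Prop :=
  ∀ ρ, Extends x ρ → ∀ j, (R ρ j).Represents x

/-- A search tree: the search stops at a `leaf j` and uses the relaxation `j` of the list; a
`branch v t₀ t₁` gives the variable `v` the value `false` and continues with `t₀`, and gives it the
value `true` and continues with `t₁` (a value which `v` already has is replaced, so that branching
twice on a variable is useless). -/
inductive SearchTree (n J : ℕ) : Type where
  | leaf (j : Fin J) : SearchTree n J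
  | branch (v : Fin n) (t₀ t₁ : SearchTree n J) : SearchTree n J

/-- The cost of the search which starts at the partial assignment `ρ`: the sum of `1 + size` over
the relaxations which are used at the leaves. -/
def SearchTree.cost {n J K : ℕ} (R : Scheme n J K) : SearchTree n J → Partial n → ℕ
  | .leaf j, ρ => 1 + (R ρ j).size
  | .branch v t₀ t₁, ρ =>
    t₀.cost R (Function.update ρ v (some false)) + t₁.cost R (Function.update ρ v (some true))

/-- The search which starts at the partial assignment `ρ` refutes `Φ`: the relaxations which are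
used at the leaves refute it. -/
def SearchTree.Refutes {n J K : ℕ} (R : Scheme n J K) (h : ℝ) (Φ : Formula n) :
    SearchTree n J → Partial n → Prop
  | .leaf j, ρ => (R ρ j).Refutes h Φ
  | .branch v t₀ t₁, ρ => t₀.Refutes R h Φ (Function.update ρ v (some false)) ∧
    t₁.Refutes R h Φ (Function.update ρ v (some true))

/-- The scheme refutes `Φ` with the parameter `h`: some search tree which starts at the empty partial
assignment does it at a cost of at most `exp h`. -/
def SchemeRefutes {n J K : ℕ} (R : Scheme n J K) (h : ℝ) (Φ : Formula n) : Prop :=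
  ∃ T : SearchTree n J, (T.cost R fun _ => none : ℝ) ≤ Real.exp h ∧ T.Refutes R h Φ fun _ => none

open Classical in
/-- The probability that the random scheme `R` (`R ω` has the probability `p ω`) represents a
uniformly random assignment. -/
noncomputable def probRepresents {n J K : ℕ} {Ω : Type} [Fintype Ω] (p : Ω → ℝ)
    (R : Ω → Scheme n J K) : ℝ :=
  ∑ ω, p ω * (((Finset.univ : Finset (Fin n → Bool)).filter fun x =>
    SchemeRepresents (R ω) x).card / (2 : ℝ) ^ n)

open Classical in
/-- The probability that the random scheme `R` refutes `Φ` with the parameter `h` after `Φ` has been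
placed on the `n` variables by a uniformly random injection and a uniformly random
complementation. -/
noncomputable def probRefutes {m n J K : ℕ} {Ω : Type} [Fintype Ω] (p : Ω → ℝ)
    (R : Ω → Scheme n J K) (h : ℝ) (Φ : Formula m) : ℝ :=
  ∑ ω, p ω * (((Finset.univ : Finset ((Fin m ↪ Fin n) × (Fin n → Bool))).filter fun q =>
    SchemeRefutes (R ω) h (Φ.place q.1 q.2)).card /
      (Fintype.card (Fin m ↪ Fin n) * (2 : ℝ) ^ n))

open SDX

theorem place_sat {m n : ℕ} (f : Fin m ↪ Fin n) (z : Fin n → Bool) (C : Clause m)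
    (x : Fin n → Bool) :
    (C.place f z).Sat x ↔ C.Sat fun v => xor (x (f v)) (z (f v)) := by
  simp only [Clause.Sat, Clause.place]
  refine exists_congr fun i => ?_
  cases x (f (C.var i)) <;> cases C.sign i <;> cases z (f (C.var i)) <;> decide

theorem place_value {m n : ℕ} (f : Fin m ↪ Fin n) (z : Fin n → Bool) (Φ : Formula m)
    (x : Fin n → Bool) :
    (Φ.place f z).value x = Φ.value fun v => xor (x (f v)) (z (f v)) := by
  simp only [Formula.value, Formula.place, place_sat]

theorem place_congr {m n : ℕ} {f f' : Fin m ↪ Fin n} (z : Fin n → Bool) (C : Clause m)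
    (h : ∀ i, f (C.var i) = f' (C.var i)) : C.place f z = C.place f' z := by
  simp only [Clause.place, h]

open Classical in
theorem value_eq {m M : ℕ} (hM : 0 < M) (Φ : Fin M → Clause m) (y : Fin m → Bool) :
    (Formula.mk M Φ).value y = 1 - (((Finset.univ : Finset (Fin M)).filter
      fun e => ∀ i, y ((Φ e).var i) ≠ (Φ e).sign i).card : ℝ) / M := by
  have hM' : (0 : ℝ) < M := by exact_mod_cast hM
  have h1 : Nat.card {j : Fin M // (Φ j).Sat y} + ((Finset.univ : Finset (Fin M)).filter
      fun e => ∀ i, y ((Φ e).var i) ≠ (Φ e).sign i).card = M := by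
    rw [Nat.card_eq_fintype_card, Fintype.card_subtype]
    have h2 := Finset.card_filter_add_card_filter_not (s := (Finset.univ : Finset (Fin M)))
      (fun e => (Φ e).Sat y)
    rw [Finset.card_univ, Fintype.card_fin] at h2
    refine Eq.trans ?_ h2
    congr 2
    ext e
    simp [Clause.Sat]
  have h3 : (Nat.card {j : Fin M // (Φ j).Sat y} : ℝ) = M - (((Finset.univ :
      Finset (Fin M)).filter fun e => ∀ i, y ((Φ e).var i) ≠ (Φ e).sign i).card : ℝ) := by
    rw [eq_sub_iff_add_eq]
    exact_mod_cast h1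
  rw [Formula.value]
  change (Nat.card {j : Fin M // (Φ j).Sat y} : ℝ) / (M : ℝ) = _
  rw [h3, sub_div, div_self hM'.ne']

open Classical in
/-- bookkeeping of averages -/
theorem avg_prod {Ω P Z : Type} [Fintype Ω] [Fintype P] [Fintype Z] (p : Ω → ℝ)
    (C : Ω → P → Z → Prop) (N₁ N₂ : ℝ) (h₁ : N₁ ≠ 0) (h₂ : N₂ ≠ 0) :
    ∑ π : P, ∑ ω : Ω × Z, (if C ω.1 π ω.2 then p ω.1 / N₂ else 0)
      = (∑ ω, p ω * (((Finset.univ : Finset (P × Z)).filter fun q => C ω q.1 q.2).card
          / (N₁ * N₂))) * N₁ := by
  rw [Finset.sum_comm, Fintype.sum_prod_type, Finset.sum_mul]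
  refine Finset.sum_congr rfl fun ω _ => ?_
  rw [← Finset.sum_boole, Fintype.sum_prod_type, Finset.sum_comm]
  have h3 : p ω * ((∑ x : P, ∑ y : Z, (if C ω x y then (1 : ℝ) else 0)) / (N₁ * N₂)) * N₁
      = ∑ x : P, ∑ y : Z, (if C ω x y then p ω / N₂ else 0) := by
    have h4 : p ω * ((∑ x : P, ∑ y : Z, (if C ω x y then (1 : ℝ) else 0)) / (N₁ * N₂)) * N₁
        = (p ω / N₂) * ∑ x : P, ∑ y : Z, (if C ω x y then (1 : ℝ) else 0) := by
      field_simp
    rw [h4, Finset.mul_sum]
    refine Finset.sum_congr rfl fun x _ => ?_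
    rw [Finset.mul_sum]
    refine Finset.sum_congr rfl fun y _ => ?_
    rw [mul_ite, mul_one, mul_zero]
  exact h3.symm

/-- the relaxation at the first leaf -/
def SearchTree.label {n J : ℕ} : SearchTree n J → Fin J
  | .leaf j => j
  | .branch _ t₀ _ => t₀.label

/-- the node of the tree, truncated as soon as `d` variables have values, to which `x` comes -/
def SearchTree.node {n J : ℕ} (d : ℕ) (x : Fin n → Bool) :
    SearchTree n J → Partial n → Partial n × Fin J
  | .leaf j, ρ => (ρ, j)
  | .branch v t₀ t₁, ρ => if d ≤ (BB.dom ρ).card then (ρ, t₀.label) else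
      if x v then t₁.node d x (Function.update ρ v (some true))
      else t₀.node d x (Function.update ρ v (some false))

theorem extends_update {n : ℕ} {x : Fin n → Bool} {ρ : Partial n} (h : Extends x ρ) (v : Fin n)
    {a : Bool} (ha : x v = a) : Extends x (Function.update ρ v (some a)) := by
  intro u
  by_cases hu : u = v
  · subst hu
    right
    rw [Function.update_self, ha]
  · rw [Function.update_of_ne hu]
    exact h u

theorem node_extends {n J : ℕ} (d : ℕ) (x : Fin n → Bool) (T : SearchTree n J) :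
    ∀ ρ : Partial n, Extends x ρ → Extends x (T.node d x ρ).1 := by
  induction T with
  | leaf j => exact fun ρ h => h
  | branch v t₀ t₁ ih₀ ih₁ =>
    intro ρ h
    rw [SearchTree.node]
    split_ifs with h1 h2
    · exact h
    · exact ih₁ _ (extends_update h v h2)
    · exact ih₀ _ (extends_update h v (by simpa using h2))

theorem node_keeps {n J : ℕ} (d : ℕ) (x : Fin n → Bool) (T : SearchTree n J) :
    ∀ ρ : Partial n, Extends x ρ → ∀ v a, ρ v = some a → (T.node d x ρ).1 v = some a := by
  induction T with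
  | leaf j => exact fun ρ _ v a h => h
  | branch u t₀ t₁ ih₀ ih₁ =>
    intro ρ h v a hv
    have key : ∀ c, x u = c → Function.update ρ u (some c) v = some a := by
      intro c hc
      by_cases huv : v = u
      · subst huv
        rw [Function.update_self]
        rcases h v with h1 | h1
        · rw [h1] at hv
          exact absurd hv (by simp)
        · rw [← hv, h1, hc]
      · rw [Function.update_of_ne huv]
        exact hv
    rw [SearchTree.node]
    split_ifs with h1 h2
    · exact hv
    · exact ih₁ _ (extends_update h u h2) v a (key true h2)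
    · have h2' : x u = false := by simpa using h2
      exact ih₀ _ (extends_update h u h2') v a (key false h2')

theorem node_eq {n J : ℕ} (d : ℕ) (x x' : Fin n → Bool) (T : SearchTree n J) :
    ∀ ρ : Partial n, Extends x ρ → Extends x' (T.node d x ρ).1 →
      T.node d x' ρ = T.node d x ρ := by
  induction T with
  | leaf j => exact fun ρ _ _ => rfl
  | branch v t₀ t₁ ih₀ ih₁ =>
    intro ρ h h'
    rw [SearchTree.node] at h'
    rw [SearchTree.node, SearchTree.node]
    by_cases h1 : d ≤ (BB.dom ρ).card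
    · rw [if_pos h1, if_pos h1]
    · rw [if_neg h1] at h' ⊢
      rw [if_neg h1]
      cases h2 : x v with
      | true =>
        rw [h2, if_pos rfl] at h'
        have h3 : x' v = true := by
          have h4 := node_keeps d x t₁ _ (extends_update h v h2) v true (Function.update_self _ _ _)
          rcases h' v with h5 | h5
          · rw [h4] at h5
            exact absurd h5 (by simp)
          · rw [h4] at h5
            exact (Option.some.inj h5).symm
        rw [h3, if_pos rfl, if_pos rfl]
        exact ih₁ _ (extends_update h v h2) h'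
      | false =>
        rw [h2, if_neg (by simp)] at h'
        have h3 : x' v = false := by
          have h4 := node_keeps d x t₀ _ (extends_update h v h2) v false
            (Function.update_self _ _ _)
          rcases h' v with h5 | h5
          · rw [h4] at h5
            exact absurd h5 (by simp)
          · rw [h4] at h5
            exact (Option.some.inj h5).symm
        rw [h3, if_neg (by simp), if_neg (by simp)]
        exact ih₀ _ (extends_update h v h2) h'

theorem card_dom_update {n : ℕ} (ρ : Partial n) (v : Fin n) (a : Bool) :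
    (BB.dom (Function.update ρ v (some a))).card ≤ (BB.dom ρ).card + 1 := by
  refine (Finset.card_le_card (t := insert v (BB.dom ρ)) fun u hu => ?_).trans
    (Finset.card_insert_le _ _)
  rw [Finset.mem_insert]
  by_cases huv : u = v
  · exact Or.inl huv
  · right
    rw [BB.mem_dom, Function.update_of_ne huv] at hu
    rwa [BB.mem_dom]

theorem node_card {n J : ℕ} (d : ℕ) (x : Fin n → Bool) (T : SearchTree n J) :
    ∀ ρ : Partial n, (BB.dom ρ).card ≤ d → (BB.dom (T.node d x ρ).1).card ≤ d := by
  induction T with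
  | leaf j => exact fun ρ h => h
  | branch v t₀ t₁ ih₀ ih₁ =>
    intro ρ h
    rw [SearchTree.node]
    split_ifs with h1 h2
    · exact h
    · exact ih₁ _ ((card_dom_update ρ v true).trans (by omega))
    · exact ih₀ _ ((card_dom_update ρ v false).trans (by omega))

theorem cost_pos {n J K : ℕ} (R : Scheme n J K) (T : SearchTree n J) :
    ∀ ρ : Partial n, 1 ≤ T.cost R ρ := by
  induction T with
  | leaf j =>
    intro ρ
    rw [SearchTree.cost]
    omega
  | branch v t₀ t₁ ih₀ ih₁ =>
    intro ρ
    rw [SearchTree.cost]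
    have := ih₀ (Function.update ρ v (some false))
    omega

open Classical in
theorem node_image {n J K : ℕ} (R : Scheme n J K) (d : ℕ) (T : SearchTree n J) :
    ∀ ρ : Partial n,
      ((Finset.univ : Finset (Fin n → Bool)).image fun x => T.node d x ρ).card ≤ T.cost R ρ := by
  induction T with
  | leaf j =>
    intro ρ
    refine (Finset.card_le_card (t := {(ρ, j)}) fun ρ' h => ?_).trans ?_
    · obtain ⟨x, -, rfl⟩ := Finset.mem_image.1 h
      exact Finset.mem_singleton_self _
    · rw [Finset.card_singleton]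
      exact cost_pos R _ ρ
  | branch v t₀ t₁ ih₀ ih₁ =>
    intro ρ
    by_cases h1 : d ≤ (BB.dom ρ).card
    · refine (Finset.card_le_card (t := {(ρ, t₀.label)}) fun ρ' h => ?_).trans ?_
      · obtain ⟨x, -, rfl⟩ := Finset.mem_image.1 h
        rw [SearchTree.node, if_pos h1]
        exact Finset.mem_singleton_self _
      · rw [Finset.card_singleton]
        exact cost_pos R _ ρ
    · refine (Finset.card_le_card (t := (Finset.univ.image fun x =>
        t₀.node d x (Function.update ρ v (some false))) ∪ (Finset.univ.image fun x =>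
        t₁.node d x (Function.update ρ v (some true)))) fun ρ' h => ?_).trans
          ((Finset.card_union_le _ _).trans (Nat.add_le_add (ih₀ _) (ih₁ _)))
      obtain ⟨x, -, rfl⟩ := Finset.mem_image.1 h
      rw [SearchTree.node, if_neg h1, Finset.mem_union]
      split_ifs
      · exact Or.inr (Finset.mem_image_of_mem _ (Finset.mem_univ x))
      · exact Or.inl (Finset.mem_image_of_mem _ (Finset.mem_univ x))

theorem node_refutes {n J K : ℕ} (R : Scheme n J K) (h : ℝ) (Φ : Formula n) (d : ℕ)
    (x : Fin n → Bool) (T : SearchTree n J) : ∀ ρ : Partial n, T.Refutes R h Φ ρ →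
      d ≤ (BB.dom (T.node d x ρ).1).card ∨
      ((R (T.node d x ρ).1 (T.node d x ρ).2).Refutes h Φ ∧
        (R (T.node d x ρ).1 (T.node d x ρ).2).size ≤ T.cost R ρ) := by
  induction T with
  | leaf j =>
    intro ρ hρ
    refine Or.inr ⟨hρ, ?_⟩
    rw [SearchTree.cost]
    exact Nat.le_add_left _ _
  | branch v t₀ t₁ ih₀ ih₁ =>
    intro ρ hρ
    rw [SearchTree.node, SearchTree.cost]
    rw [SearchTree.Refutes] at hρ
    split_ifs with h1 h2
    · exact Or.inl h1
    · rcases ih₁ _ hρ.2 with h3 | ⟨h3, h4⟩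
      · exact Or.inl h3
      · exact Or.inr ⟨h3, h4.trans (Nat.le_add_left _ _)⟩
    · rcases ih₀ _ hρ.1 with h3 | ⟨h3, h4⟩
      · exact Or.inl h3
      · exact Or.inr ⟨h3, h4.trans (Nat.le_add_right _ _)⟩

/-- one formula with a pseudo-measure -/
theorem one_formula {n m b M : ℕ} (hM : 0 < M) (hb : 0 < b) (c γ η : ℝ) (hγ0 : 0 < γ)
    (hγ1 : γ ≤ 1) (hγη : γ ≤ η / 4) (hmb : m * b ≤ n) (hnm : n ≤ m * b + 3 * b)
    (Φ : Fin M → Clause m)
    (hΦ : AV.Meas n b c γ (fun e => ⟨(Φ e).var, (Φ e).distinct⟩) fun e => (Φ e).sign)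
    (J K : ℕ) (hJ : (J : ℝ) ≤ Real.exp (c * n)) (hK : (K : ℝ) ≤ Real.exp (c * n))
    (Ω : Type) [Fintype Ω] (p : Ω → ℝ) (R : Ω → Scheme n J K) (hp : ∀ ω, 0 ≤ p ω)
    (hp1 : ∑ ω, p ω = 1) :
    probRepresents p R + probRefutes p R (c * n) (Formula.mk M Φ) < 1 + η := by
  classical
  unfold AV.Meas at hΦ
  obtain ⟨d₀, mu, P, γ', θ₁, ν, hrow, hγ'0, hθ₁0, hθ₁γ, hν0, htot, hcount, hpos, hdeep, hno⟩ := hΦ
  have hcard : Fintype.card (Fin m × Fin b) ≤ Fintype.card (Fin n) := by
    rw [Fintype.card_prod, Fintype.card_fin, Fintype.card_fin, Fintype.card_fin]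
    exact hmb
  obtain ⟨e₀⟩ : Nonempty (Fin m × Fin b ↪ Fin n) := Function.Embedding.nonempty_of_card_le hcard
  let V : Fin m ↪ Fin n :=
    ⟨fun j => e₀ (j, ⟨0, hb⟩), fun j j' h => (Prod.mk.inj (e₀.injective h)).1⟩
  by_contra hcon
  push Not at hcon
  set h : ℝ := c * n with hh
  set Φ' : Formula m := Formula.mk M Φ with hΦ'
  have hfac : (0 : ℝ) < n.factorial := by exact_mod_cast Nat.factorial_pos n
  have h2n : (0 : ℝ) < 2 ^ n := by positivity
  have : Nonempty (Fin m ↪ Fin n) := ⟨V⟩
  have hemb : (0 : ℝ) < Fintype.card (Fin m ↪ Fin n) := by exact_mod_cast Fintype.card_pos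
  -- average over the translations
  set α : ℝ := probRepresents p R with hα
  let p' : Ω × (Fin n → Bool) → ℝ := fun ω => p ω.1 / 2 ^ n
  have hp' : ∀ ω, 0 ≤ p' ω := fun ω => div_nonneg (hp _) h2n.le
  have hp'1 : ∑ ω, p' ω = 1 := by
    rw [Fintype.sum_prod_type, ← hp1]
    refine Finset.sum_congr rfl fun ω _ => ?_
    simp only [p']
    rw [Finset.sum_const, Finset.card_univ, Fintype.card_fun, Fintype.card_bool, Fintype.card_fin,
      nsmul_eq_mul]
    push_cast
    field_simp
  -- the renaming
  let H : (Fin m ↪ Fin n) → ℝ := fun f => ∑ ω : Ω × (Fin n → Bool),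
      if SchemeRefutes (R ω.1) h (Φ'.place f ω.2) then p' ω else 0
  have hH : (1 - α + η) * Fintype.card (Fin m ↪ Fin n) ≤ ∑ f, H f := by
    have h1 : 1 - α + η ≤ probRefutes p R h Φ' := by linarith
    exact (mul_le_mul_of_nonneg_right h1 hemb.le).trans (le_of_eq
      (avg_prod p (fun ω f z => SchemeRefutes (R ω) h (Φ'.place f z))
        (Fintype.card (Fin m ↪ Fin n)) (2 ^ n) hemb.ne' h2n.ne').symm)
  have hG : (1 - α + η) * (n.factorial : ℝ)
      ≤ ∑ π : Equiv.Perm (Fin n), H (V.trans π.toEmbedding) := by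
    have h1 := AV.sum_emb V H
    have h2 := mul_le_mul_of_nonneg_left hH hfac.le
    rw [← h1] at h2
    refine le_of_mul_le_mul_left ?_ hemb
    calc _ = n.factorial * ((1 - α + η) * Fintype.card (Fin m ↪ Fin n)) := by ring
      _ ≤ _ := h2
  obtain ⟨π₀, σ, hσ, hren⟩ := LIFT.avg_perm4 hb e₀ (fun π => H (V.trans π.toEmbedding))
    (1 - α + η) hG
  set e : Fin m × Fin b ↪ Fin n := e₀.trans π₀.toEmbedding with he
  let fS : (Fin m → Fin b) → (Fin m ↪ Fin n) := fun S => V.trans (π₀ * σ S).toEmbedding
  have hfS : ∀ S j, fS S j = e (j, S j) := by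
    intro S j
    change π₀ (σ S (e₀ (j, ⟨0, hb⟩))) = π₀ (e₀ (j, S j))
    rw [hσ]
  let xx : (Fin m × Fin b → Bool) → (Fin n → Bool) → Fin n → Bool := fun x z v =>
    xor (Function.extend e x (fun _ => false) v) (z v)
  let 𝒳 : Ω × (Fin n → Bool) → Finset (Fin m × Fin b → Bool) := fun ω =>
    Finset.univ.filter fun x => SchemeRepresents (R ω.1) (xx x ω.2)
  let 𝒮 : Ω × (Fin n → Bool) → Finset (Fin m → Fin b) := fun ω => Finset.univ.filter fun S =>
    SchemeRefutes (R ω.1) h (Φ'.place (fS S) ω.2)
  have hcardY : ((Fintype.card (Fin m → Fin b) : ℕ) : ℝ) = (b : ℝ) ^ m := by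
    rw [Fintype.card_fun, Fintype.card_fin, Fintype.card_fin, Nat.cast_pow]
  have : Nonempty (Fin m → Fin b) := ⟨fun _ => ⟨0, hb⟩⟩
  have htrans : ∀ (x : Fin m × Fin b → Bool) (ω : Ω),
      ((Finset.univ : Finset (Fin n → Bool)).filter fun y => SchemeRepresents (R ω) y).card
        = ((Finset.univ : Finset (Fin n → Bool)).filter fun y =>
          SchemeRepresents (R ω) (xx x y)).card := by
    intro x ω
    refine Finset.card_bij (fun (y : Fin n → Bool) _ => (fun v =>
      xor (Function.extend e x (fun _ => false) v) (y v) : Fin n → Bool)) ?_ ?_ ?_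
    · intro y hy
      rw [Finset.mem_filter] at hy ⊢
      refine ⟨Finset.mem_univ _, ?_⟩
      have h12 : xx x (fun v => xor (Function.extend e x (fun _ => false) v) (y v)) = y := by
        funext v
        simp only [xx]
        cases Function.extend e x (fun _ => false) v <;> cases y v <;> rfl
      rw [h12]
      exact hy.2
    · intro y _ y' _ h
      funext v
      have := congrFun h v
      revert this
      cases Function.extend e x (fun _ => false) v <;> cases y v <;> cases y' v <;> simp
    · intro y hy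
      rw [Finset.mem_filter] at hy
      refine ⟨xx x y, ?_, ?_⟩
      · rw [Finset.mem_filter]
        exact ⟨Finset.mem_univ _, hy.2⟩
      · funext v
        simp only [xx]
        cases Function.extend e x (fun _ => false) v <;> cases y v <;> rfl
  -- a good scheme
  have hW : (0 : ℝ) < (b : ℝ) ^ m * 2 ^ (m * b) := by
    have : (0 : ℝ) < b := by exact_mod_cast hb
    positivity
  obtain ⟨ω, -, hrect⟩ := LIFT.average4 p' (fun _ => (0 : ℝ)) hp' hp'1
    (fun _ => le_rfl) mu (2 ^ (m * b)) (by positivity) γ η α 1 0 hγ0 hγη hγ1 one_pos (by simp)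
    (by
      rw [zero_div]
      linarith) hrow (by
      intro u v hu hv
      rw [hcardY]
      have h13 := hpos u v hu hv
      have h14 : θ₁ * ((b : ℝ) ^ m * 2 ^ (m * b)) ≤ γ / 2 * ((b : ℝ) ^ m * 2 ^ (m * b)) :=
        mul_le_mul_of_nonneg_right hθ₁γ hW.le
      linarith) 𝒳 𝒮 (fun x => by
        refine le_of_eq ?_
        rw [hα, probRepresents, Fintype.sum_prod_type]
        refine Finset.sum_congr rfl fun ω _ => ?_
        simp only [𝒳, Finset.mem_filter, Finset.mem_univ, true_and, p']
        rw [← Finset.sum_filter, Finset.sum_const, nsmul_eq_mul, htrans x ω]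
        ring) (by
        rw [hcardY]
        refine hren.trans (le_of_eq ?_)
        simp only [H]
        rw [Finset.sum_comm]
        refine Finset.sum_congr rfl fun ω _ => ?_
        rw [← Finset.sum_filter, Finset.sum_const, nsmul_eq_mul, mul_comm])
  -- the search trees
  obtain ⟨S₁, hS₁⟩ : (𝒮 ω).Nonempty := by
    rw [Finset.nonempty_iff_ne_empty]
    intro hemp
    rw [hemp, Finset.sum_empty, hcardY] at hrect
    have := mul_pos hγ0 hW
    linarith
  obtain ⟨T₁, -, -⟩ := (Finset.mem_filter.1 hS₁).2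
  have hT : ∀ S, ∃ T : SearchTree n J,
      S ∈ 𝒮 ω → (T.cost (R ω.1) fun _ => none : ℝ) ≤ Real.exp h ∧
      T.Refutes (R ω.1) h (Φ'.place (fS S) ω.2) fun _ => none := by
    intro S
    by_cases hS : S ∈ 𝒮 ω
    · obtain ⟨T, h1, h2⟩ := (Finset.mem_filter.1 hS).2
      exact ⟨T, fun _ => ⟨h1, h2⟩⟩
    · exact ⟨T₁, fun h' => absurd h' hS⟩
  choose T hT using hT
  have hnone : ∀ x : Fin n → Bool, Extends x fun _ => none := fun x v => Or.inl rfl
  have hfinal := BB.combine mu (2 ^ (m * b)) θ₁ γ' ν P (Real.exp h) (by positivity) hθ₁0 hγ'0 hν0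
    (Real.exp_pos _).le (𝒮 ω) (𝒳 ω) (fun S x => (T S).node d₀ (xx x ω.2) fun _ => none)
    (fun ρ x => Extends (xx x ω.2) ρ.1)
    (fun S _ x => node_extends d₀ _ (T S) _ (hnone _))
    (fun S _ x x' h' => node_eq d₀ _ _ (T S) _ (hnone _) h')
    ((Finset.univ.filter fun ρ => (BB.dom ρ).card ≤ d₀) ×ˢ Finset.univ)
    (fun S _ x => Finset.mem_product.2 ⟨Finset.mem_filter.2 ⟨Finset.mem_univ _,
      node_card d₀ _ (T S) _ (by simp [BB.dom])⟩, Finset.mem_univ _⟩)
    (by
      rw [Finset.card_product, Finset.card_univ, Fintype.card_fin, Nat.cast_mul]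
      exact (mul_le_mul_of_nonneg_left hJ (Nat.cast_nonneg _)).trans hcount)
    (fun ρ => d₀ ≤ (BB.dom ρ.1).card) ?_ ?_ ?_ (by rw [hcardY]; exact hpos)
  · have h15 : (P * γ' + P * θ₁ + Real.exp h * ν) * ((b : ℝ) ^ m * 2 ^ (m * b))
        < γ * ((b : ℝ) ^ m * 2 ^ (m * b)) := mul_lt_mul_of_pos_right htot hW
    rw [hcardY] at hfinal hrect
    linarith
  · -- shallow nodes
    intro ρ hρ hshallow 𝒮' 𝒳' h𝒮' h𝒳'
    rw [hcardY]
    rcases 𝒮'.eq_empty_or_nonempty with hemp | ⟨S₀, hS₀⟩
    · rw [hemp, Finset.sum_empty]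
      positivity
    have hnode : ∀ S ∈ 𝒮', (R ω.1 ρ.1 ρ.2).Refutes h (Φ'.place (fS S) ω.2) ∧
        ((R ω.1 ρ.1 ρ.2).size : ℝ) ≤ Real.exp h := by
      intro S hS
      obtain ⟨hS1, x, hx⟩ := h𝒮' S hS
      obtain ⟨h16, h17⟩ := hT S hS1
      rcases node_refutes (R ω.1) h _ d₀ (xx x ω.2) (T S) _ h17 with h18 | ⟨h18, h19⟩
      · rw [hx] at h18
        exact absurd h18 hshallow
      · rw [hx] at h18 h19
        refine ⟨h18, le_trans ?_ h16⟩
        exact_mod_cast h19
    set R₁ : Relaxation n K := R ω.1 ρ.1 ρ.2 with hR₁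
    have hrep : ∀ x ∈ 𝒳', R₁.Represents (xx x ω.2) := fun x hx =>
      (Finset.mem_filter.1 (h𝒳' x hx).1).2 ρ.1 (h𝒳' x hx).2 ρ.2
    let pt : (Fin m × Fin b → Bool) →
        (Fin R₁.free → ℝ) × Matrix (Fin R₁.size) (Fin R₁.size) ℝ :=
      fun x => if hx : x ∈ 𝒳' then (hrep x hx).choose else 0
    have hpt : ∀ x ∈ 𝒳', pt x ∈ R₁.feasible ∧
        (∀ Φ, R₁.obj Φ (pt x) = Φ.value (xx x ω.2)) ∧ ∀ Ψ k, |R₁.cut Ψ k (pt x)| ≤ 1 ∧
          ((∀ C ∈ Ψ, C.Sat (xx x ω.2)) → R₁.cut Ψ k (pt x) ≤ 0) := by
      intro x hx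
      have := (hrep x hx).choose_spec
      simp only [pt, hx, dif_pos]
      exact this
    have h7 : ∀ S x j, xor (xx x ω.2 (fS S j)) (ω.2 (fS S j)) = rs S x j := by
      intro S x j
      rw [hfS]
      simp only [xx]
      rw [e.injective.extend_apply]
      change xor (xor (x (j, S j)) _) _ = x (j, S j)
      cases x (j, S j) <;> cases ω.2 (e (j, S j)) <;> rfl
    refine hno R₁.size K (Fin R₁.free → ℝ) R₁.space 𝒳' 𝒮' pt
      (fun S => R₁.obj (Φ'.place (fS S) ω.2))
      (fun T k S => R₁.cut ((fun e' : Fin M => (Φ e').place (fS S) ω.2) '' (T : Set (Fin M))) k)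
      (hnode S₀ hS₀).2 hK
      (fun x hx => (hpt x hx).1) (fun S _ x hx => ?_) (fun T k S S' hSS' => ?_)
      (fun T k S x hx => ((hpt x hx).2.2 _ k).1) (fun T k S x hx hsat => ?_)
      (fun S hS q hq hq2 => ?_)
    · rw [(hpt x hx).2.1, place_value, hΦ', value_eq hM]
      simp only [h7]
      rfl
    · congr 1
      refine Set.image_congr fun e' he' => place_congr _ _ fun i => ?_
      rw [hfS, hfS]
      exact congrArg (fun j => e (_, j)) (hSS' e' (Finset.mem_coe.1 he') i)
    · refine ((hpt x hx).2.2 _ k).2 fun C hC => ?_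
      obtain ⟨e', he', rfl⟩ := hC
      refine (place_sat _ _ _ _).2 ?_
      simp only [h7]
      exact hsat e' (Finset.mem_coe.1 he')
    · exact (hnode S hS).1 q ⟨hq, hq2⟩
  · -- deep nodes
    intro ρ hρ hd S 𝒳' h𝒳'
    rcases BB.agree_cube e hnm ω.2 ρ.1 with h20 | ⟨F, a, hF1, hF2, hF⟩
    · have h21 : 𝒳' = ∅ := by
        rw [Finset.eq_empty_iff_forall_notMem]
        intro x hx
        exact h20 x ((h𝒳' x).1 hx)
      rw [h21, Finset.sum_empty]
      positivity
    · have h22 : (BB.dom ρ.1).card ≤ d₀ :=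
        (Finset.mem_filter.1 (Finset.mem_product.1 hρ).1).2
      refine le_trans (le_of_eq ?_) (hdeep F a S (hd.trans hF1) (hF2.trans h22))
      rw [← Finset.sum_subset (Finset.subset_univ 𝒳')]
      · refine Finset.sum_congr rfl fun x hx => ?_
        rw [BB.ind, if_pos ((hF x).1 ((h𝒳' x).1 hx)), one_mul]
      · intro x _ hx
        rw [BB.ind, if_neg, zero_mul]
        intro h23
        exact hx ((h𝒳' x).2 ((hF x).2 h23))
  · -- the number of deep nodes
    intro S hS 𝒬 h𝒬
    refine le_trans ?_ (hT S hS).1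
    have h24 := node_image (R ω.1) d₀ (T S) fun _ => none
    refine Nat.cast_le.2 (le_trans (Finset.card_le_card fun ρ hρ => ?_) h24)
    obtain ⟨-, x, rfl⟩ := h𝒬 ρ hρ
    exact Finset.mem_image_of_mem _ (Finset.mem_univ _)

/-- clauses as pairs -/
def clauseEquiv (m : ℕ) : Clause m ≃ (Fin 3 ↪ Fin m) × (Fin 3 → Bool) where
  toFun C := (⟨C.var, C.distinct⟩, C.sign)
  invFun q := ⟨q.1, q.2, q.1.injective⟩
  left_inv _ := rfl
  right_inv _ := rfl

/-- **Theorem.** Let `Δ ≥ 1`. There are an integer `b ≥ Δ` and `c > 0` with the following property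
for all `η, δ > 0` and all large `n`, where `m` is the integer part of `n / b`. Among all formulas
`Φ` with `m` variables and `Δ m` clauses at least a fraction `1 - δ` has the following two
properties. Every assignment satisfies at most a fraction `7 / 8 + 1 / sqrt (2 Δ)` of the clauses.
For each random scheme `R` for 3-SAT on `n` variables (a probability distribution `p` on schemes
`R ω`) with lists of at most `exp (c n)` relaxations and at most `exp (c n)` cuts for each set of
clauses, the probability that `R` represents a uniformly random assignment plus the probability that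
`R` refutes `Φ`, placed on the `n` variables in a uniformly random way, with the parameter `c n`, is
less than `1 + η`. -/
theorem result (Δ : ℕ) (hΔ : 0 < Δ) :
    ∃ b : ℕ, Δ ≤ b ∧ ∃ c : ℝ, 0 < c ∧ ∀ η δ : ℝ, 0 < η → 0 < δ → ∃ n₀ : ℕ, ∀ n m : ℕ, n₀ ≤ n →
      m = n / b → (1 - δ) * Nat.card (Fin (Δ * m) → Clause m) ≤
        Nat.card {Φ : Fin (Δ * m) → Clause m //
          (∀ x, (Formula.mk (Δ * m) Φ).value x ≤ 7 / 8 + 1 / Real.sqrt (2 * Δ)) ∧
          ∀ (J K : ℕ), (J : ℝ) ≤ Real.exp (c * n) → (K : ℝ) ≤ Real.exp (c * n) →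
            ∀ (Ω : Type) [Fintype Ω] (p : Ω → ℝ) (R : Ω → Scheme n J K),
            (∀ ω, 0 ≤ p ω) → ∑ ω, p ω = 1 →
            probRepresents p R + probRefutes p R (c * n) (Formula.mk (Δ * m) Φ) < 1 + η} := by
  classical
  obtain ⟨c, b, hc, hb, hΔb, hcore⟩ := AV.core8 Δ hΔ
  refine ⟨b, hΔb, c, hc, fun η δ hη hδ => ?_⟩
  have hΔ' : (0 : ℝ) < Δ := by exact_mod_cast hΔ
  set ε : ℝ := 1 / Real.sqrt (2 * Δ) with hε
  have hε0 : 0 < ε := by positivity
  have hε1 : 1 ≤ 2 * ε ^ 2 * Δ := by
    rw [hε, div_pow, one_pow, Real.sq_sqrt (by positivity)]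
    apply le_of_eq
    field_simp
  set γ : ℝ := min (η / 4) 1 with hγ
  have hγ0 : 0 < γ := lt_min (by positivity) one_pos
  have hγ1 : γ ≤ 1 := min_le_right _ _
  have hγη : γ ≤ η / 4 := min_le_left _ _
  obtain ⟨n₀, hn₀⟩ := hcore γ (δ / 2) hγ0 (by positivity)
  obtain ⟨m₀, hm₀⟩ := AV.value_rand Δ ε (δ / 2) hε0 (by positivity) hε1
  refine ⟨n₀ + b * (m₀ + 1), fun n m hn hmn => ?_⟩
  obtain ⟨hm, hmb, hnm, G, hG, hmeas⟩ := hn₀ n (by omega) m hmn
  have hm₀m : m₀ ≤ m := by
    rw [hmn, Nat.le_div_iff_mul_le hb]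
    nlinarith
  have hval := hm₀ m hm₀m
  have hM : 0 < Δ * m := Nat.mul_pos hΔ hm
  have hM' : (0 : ℝ) < (Δ * m : ℕ) := by exact_mod_cast hM
  let X : Type := (Fin 3 ↪ Fin m) × (Fin 3 → Bool)
  let E : (Fin (Δ * m) → Clause m) ≃ (Fin (Δ * m) → X) :=
    Equiv.arrowCongr (Equiv.refl _) (clauseEquiv m)
  set N : ℝ := (Fintype.card X : ℝ) ^ (Δ * m) with hN
  have hcardN : (Nat.card (Fin (Δ * m) → Clause m) : ℝ) = N := by
    rw [Nat.card_congr E, Nat.card_eq_fintype_card, Fintype.card_fun, Fintype.card_fin,
      Nat.cast_pow]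
  set Good : (Fin (Δ * m) → Clause m) → Prop := fun Φ =>
    (∀ x, (Formula.mk (Δ * m) Φ).value x ≤ 7 / 8 + ε) ∧
          ∀ (J K : ℕ), (J : ℝ) ≤ Real.exp (c * n) → (K : ℝ) ≤ Real.exp (c * n) →
            ∀ (Ω : Type) [Fintype Ω] (p : Ω → ℝ) (R : Ω → Scheme n J K),
            (∀ ω, 0 ≤ p ω) → ∑ ω, p ω = 1 →
            probRepresents p R + probRefutes p R (c * n) (Formula.mk (Δ * m) Φ) < 1 + η with hGood
  change (1 - δ) * (Nat.card (Fin (Δ * m) → Clause m) : ℝ) ≤ (Nat.card {Φ // Good Φ} : ℝ)
  have h1 : Nat.card {Φ // Good Φ}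
      = ((Finset.univ : Finset (Fin (Δ * m) → X)).filter fun ψ => Good (E.symm ψ)).card := by
    rw [Nat.card_congr (E.subtypeEquiv (q := fun ψ => Good (E.symm ψ)) fun Φ => by
      rw [Equiv.symm_apply_apply]), Nat.card_eq_fintype_card, Fintype.card_subtype]
  -- the two exceptional sets
  set B₁ : Finset (Fin (Δ * m) → X) := (Finset.univ : Finset (Fin (Δ * m) → X)).filter fun φ =>
        ∃ y : Fin m → Bool, (((Finset.univ : Finset (Fin (Δ * m))).filter fun e =>
          φ e ∈ AV.fl y).card : ℝ) < (1 / 8 - ε) * (Δ * m : ℕ) with hB₁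
  set B₂ : Finset (Fin (Δ * m) → X) := (Finset.univ : Finset (Fin (Δ * m) → X)).filter fun φ =>
        (fun e => (φ e).1) ∈ Gᶜ with hB₂
  have hB₂card : (B₂.card : ℝ) ≤ δ / 2 * N := by
    have h2 : B₂.card = (Gᶜ ×ˢ (Finset.univ : Finset (Fin (Δ * m) → Fin 3 → Bool))).card := by
      refine Finset.card_bij (fun φ _ => (fun e => (φ e).1, fun e => (φ e).2)) ?_ ?_ ?_
      · intro φ hφ
        rw [Finset.mem_product]
        exact ⟨(Finset.mem_filter.1 hφ).2, Finset.mem_univ _⟩
      · intro φ _ φ' _ h
        obtain ⟨h3, h4⟩ := Prod.mk.inj h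
        funext e
        exact Prod.ext (congrFun h3 e) (congrFun h4 e)
      · rintro ⟨a, s⟩ h
        refine ⟨fun e => (a e, s e), Finset.mem_filter.2 ⟨Finset.mem_univ _, ?_⟩, rfl⟩
        exact (Finset.mem_product.1 h).1
    rw [h2, Finset.card_product, Finset.card_univ, Fintype.card_fun (α := Fin (Δ * m)),
      Fintype.card_fin, hN, Fintype.card_prod]
    push_cast
    rw [mul_pow, ← mul_assoc]
    exact mul_le_mul_of_nonneg_right hG (by positivity)
  have hcov : (Finset.univ : Finset (Fin (Δ * m) → X)) ⊆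
      ((Finset.univ : Finset (Fin (Δ * m) → X)).filter fun ψ => Good (E.symm ψ)) ∪ (B₁ ∪ B₂) := by
    intro ψ _
    rw [Finset.mem_union, Finset.mem_union]
    by_cases h2 : ψ ∈ B₁
    · exact Or.inr (Or.inl h2)
    by_cases h3 : ψ ∈ B₂
    · exact Or.inr (Or.inr h3)
    refine Or.inl (Finset.mem_filter.2 ⟨Finset.mem_univ _, ?_, ?_⟩)
    · intro y
      rw [value_eq hM]
      have h4 : (1 / 8 - ε) * (Δ * m : ℕ) ≤ (((Finset.univ : Finset (Fin (Δ * m))).filter fun e =>
          ψ e ∈ AV.fl y).card : ℝ) := by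
        by_contra hcon
        exact h2 (Finset.mem_filter.2 ⟨Finset.mem_univ _, y, not_le.1 hcon⟩)
      have h5 : ((Finset.univ : Finset (Fin (Δ * m))).filter fun e => ψ e ∈ AV.fl y)
          = (Finset.univ : Finset (Fin (Δ * m))).filter fun e =>
            ∀ i, y (((E.symm ψ) e).var i) ≠ ((E.symm ψ) e).sign i := by
        ext e
        rw [Finset.mem_filter, Finset.mem_filter, AV.fl, Finset.mem_filter]
        simp only [Finset.mem_univ, true_and]
        rfl
      rw [h5] at h4
      have h6 : 1 / 8 - ε ≤ (((Finset.univ : Finset (Fin (Δ * m))).filter fun e =>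
            ∀ i, y (((E.symm ψ) e).var i) ≠ ((E.symm ψ) e).sign i).card : ℝ) / (Δ * m : ℕ) := by
        rw [le_div_iff₀ hM']
        exact h4
      linarith
    · intro J K hJ hK Ω _ p R hp hp1
      refine one_formula hM hb c γ η hγ0 hγ1 hγη hmb hnm (E.symm ψ) ?_ J K hJ hK Ω p R hp hp1
      have h4 : (fun e => (ψ e).1) ∈ G := by
        by_contra hcon
        exact h3 (Finset.mem_filter.2 ⟨Finset.mem_univ _, Finset.mem_compl.2 hcon⟩)
      exact hmeas _ h4 _
  have h2 := (Finset.card_le_card hcov).trans ((Finset.card_union_le _ _).trans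
    (Nat.add_le_add_left (Finset.card_union_le _ _) _))
  have h3 : N ≤ (((Finset.univ : Finset (Fin (Δ * m) → X)).filter fun ψ =>
      Good (E.symm ψ)).card : ℝ) + (B₁.card + B₂.card) := by
    have h4 : ((Finset.univ : Finset (Fin (Δ * m) → X)).card : ℝ) = N := by
      rw [Finset.card_univ, Fintype.card_fun, Fintype.card_fin, Nat.cast_pow]
    rw [← h4]
    exact_mod_cast h2
  rw [hcardN, h1]
  have h5 : (B₁.card : ℝ) ≤ δ / 2 * N := hval
  linarith

end Pool.Agent.Results.MP_b6562f_lc.RandomThreeSat
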