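import Pool.Agent.SDX4.Core
import Pool.Agent.SDX4.Avg
import Pool.Agent.SDX4.Back

/-!
# Randomised semidefinite relaxations of MAX-CUT have expected size `exp (c n)`
-/

set_option autoImplicit false

open scoped BigOperators Matrix

namespace Pool.Agent.Results.MP_b6562f_lc.SemidefiniteRelaxations

/-- The number of edges of the graph `G` between the two classes of the cut `x`. -/
noncomputable def cutVal {n : ℕ} (G : SimpleGraph (Fin n)) (x : Fin n → Bool) : ℝ :=
  (Nat.card {p : Fin n × Fin n // p.1 < p.2 ∧ G.Adj p.1 p.2 ∧ x p.1 ≠ x p.2} : ℝ)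

/-- The complete graph on the vertex set `S`; the other vertices are isolated. -/
def completeOn {n : ℕ} (S : Finset (Fin n)) : SimpleGraph (Fin n) where
  Adj i j := i ∈ S ∧ j ∈ S ∧ i ≠ j
  symm := ⟨fun _ _ h => ⟨h.2.1, h.1, h.2.2.symm⟩⟩
  loopless := ⟨fun _ h => h.2.2 rfl⟩

/-- A semidefinite relaxation of MAX-CUT for graphs with `n` vertices: its variables are a real
`size × size` matrix and `free` real numbers, subject to arbitrary affine equations (they define the
affine subspace `space`); every graph `G` has an arbitrary affine objective function `obj G`. -/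
structure Relaxation (n : ℕ) where
  free : ℕ
  size : ℕ
  space : AffineSubspace ℝ ((Fin free → ℝ) × Matrix (Fin size) (Fin size) ℝ)
  obj : SimpleGraph (Fin n) → ((Fin free → ℝ) × Matrix (Fin size) (Fin size) ℝ) →ᵃ[ℝ] ℝ

/-- The feasible points: the equations hold and the matrix is positive semidefinite. -/
def Relaxation.feasible {n : ℕ} (R : Relaxation n) :
    Set ((Fin R.free → ℝ) × Matrix (Fin R.size) (Fin R.size) ℝ) :=
  {p | p ∈ R.space ∧ p.2.PosSemidef}

/-- The cut `x` is represented in the relaxation: there is a feasible point at which the objective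
function of every graph is the value of the cut `x` in this graph. -/
def Relaxation.Represents {n : ℕ} (R : Relaxation n) (x : Fin n → Bool) : Prop :=
  ∃ p ∈ R.feasible, ∀ G, R.obj G p = cutVal G x

/-- The relaxation solves the graph `G` up to the additive error `δ`: at all feasible points the
objective function of `G` is less than the maximum cut of `G` plus `δ`. -/
def Relaxation.Solves {n : ℕ} (R : Relaxation n) (δ : ℝ) (G : SimpleGraph (Fin n)) : Prop :=
  ∀ p ∈ R.feasible, ∃ x : Fin n → Bool, R.obj G p < cutVal G x + δ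

open SDX SDX.h97

theorem cut_completeOn {n : ℕ} (T : Finset (Fin n)) (x : Fin n → Bool) :
    4 * cutVal (completeOn T) x = (T.card : ℝ) ^ 2 - (∑ i ∈ T, sg (x i)) ^ 2 := by
  classical
  have h1 : cutVal (completeOn T) x
      = ∑ i ∈ T, ∑ j ∈ T, if i < j ∧ x i ≠ x j then (1 : ℝ) else 0 := by
    rw [cutVal, Nat.card_eq_fintype_card, Fintype.card_subtype]
    have : (Finset.univ.filter (fun p : Fin n × Fin n =>
        p.1 < p.2 ∧ (completeOn T).Adj p.1 p.2 ∧ x p.1 ≠ x p.2))
        = (T ×ˢ T).filter (fun p => p.1 < p.2 ∧ x p.1 ≠ x p.2) := by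
      ext p
      rw [Finset.mem_filter, Finset.mem_filter, Finset.mem_product]
      constructor
      · rintro ⟨-, h1, h2, h4⟩
        exact ⟨⟨h2.1, h2.2.1⟩, h1, h4⟩
      · rintro ⟨⟨h2, h3⟩, h1, h4⟩
        exact ⟨Finset.mem_univ _, h1, ⟨h2, h3, h1.ne⟩, h4⟩
    rw [this, ← Finset.sum_product', ← Finset.sum_boole]
  have h2 : ∀ i j : Fin n, 1 - sg (x i) * sg (x j)
      = 2 * ((if i < j ∧ x i ≠ x j then (1 : ℝ) else 0)
        + (if j < i ∧ x j ≠ x i then (1 : ℝ) else 0)) := by
    intro i j
    rcases lt_trichotomy i j with h | h | h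
    · have h' : ¬ j < i := not_lt.mpr h.le
      simp only [h, h', true_and, false_and, if_false, add_zero]
      cases x i <;> cases x j <;> norm_num [sg]
    · subst h
      simp only [lt_irrefl, false_and, if_false, add_zero, mul_zero]
      cases x i <;> norm_num [sg]
    · have h' : ¬ i < j := not_lt.mpr h.le
      simp only [h, h', true_and, false_and, if_false, zero_add]
      cases x i <;> cases x j <;> norm_num [sg]
  have h3 : ∑ i ∈ T, ∑ j ∈ T, (1 - sg (x i) * sg (x j))
      = (T.card : ℝ) ^ 2 - (∑ i ∈ T, sg (x i)) ^ 2 := by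
    simp only [Finset.sum_sub_distrib, Finset.sum_const, nsmul_eq_mul, mul_one,
      ← Finset.mul_sum, ← Finset.sum_mul]
    ring
  have h4 : ∑ i ∈ T, ∑ j ∈ T, (1 - sg (x i) * sg (x j)) = 4 * cutVal (completeOn T) x := by
    simp only [h2, ← Finset.mul_sum, Finset.sum_add_distrib]
    rw [Finset.sum_comm (f := fun i j => if j < i ∧ x j ≠ x i then (1 : ℝ) else 0), ← h1]
    ring
  rw [← h4, h3]

/-- the set of the vertices `e (j, S j)` -/
def gr {n m b : ℕ} (e : Fin m × Fin b ↪ Fin n) (S : Fin m → Fin b) : Finset (Fin n) :=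
  Finset.univ.map ⟨fun j => e (j, S j), fun _ _ h => (Prod.mk.inj (e.injective h)).1⟩

theorem gr_card {n m b : ℕ} (e : Fin m × Fin b ↪ Fin n) (S : Fin m → Fin b) :
    (gr e S).card = m := by
  rw [gr, Finset.card_map, Finset.card_univ, Fintype.card_fin]

theorem gr_sum {n m b : ℕ} (e : Fin m × Fin b ↪ Fin n) (S : Fin m → Fin b)
    (x : Fin m × Fin b → Bool) (z : Fin n → Bool) :
    ∑ i ∈ gr e S, sg (Function.extend e x z i) = ssum (rs S x) := by
  rw [gr, Finset.sum_map, ssum]
  refine Finset.sum_congr rfl fun j _ => ?_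
  rw [rs]
  congr 1
  exact e.injective.extend_apply _ _ _

open Classical in
/-- **Theorem.** Let `δ < 1 / 4` and `η > 0`. There is `c > 0` such that for all large `n` there is
an odd `m ≤ n` with the following property. Let `R` be a random semidefinite relaxation of MAX-CUT on
`n` vertices (a probability distribution `p` on relaxations `R ω`) with expected size less than
`exp (c n)`. Then the probability that `R` represents a uniformly random cut plus the probability
that `R` solves the complete graph on a uniformly random set of `m` vertices up to the additive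
error `δ` is less than `1 + η`. -/
theorem result (δ η : ℝ) (hδ : δ < 1 / 4) (hη : 0 < η) :
    ∃ c : ℝ, 0 < c ∧ ∃ n₀ : ℕ, ∀ n : ℕ, n₀ ≤ n → ∃ m : ℕ, m ≤ n ∧ Odd m ∧
      ∀ (Ω : Type) [Fintype Ω] (p : Ω → ℝ) (R : Ω → Relaxation n),
      (∀ ω, 0 ≤ p ω) → ∑ ω, p ω = 1 →
      ∑ ω, p ω * ((R ω).size : ℝ) < Real.exp (c * n) →
      ∑ ω, p ω * (((Finset.univ : Finset (Fin n → Bool)).filter fun x =>
          (R ω).Represents x).card / (2 : ℝ) ^ n)
        + ∑ ω, p ω * ((((Finset.univ : Finset (Fin n)).powersetCard m).filter fun S =>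
          (R ω).Solves δ (completeOn S)).card / (n.choose m : ℝ)) < 1 + η := by
  set c₀ : ℝ := 1 - 4 * max δ 0 with hc₀
  have h0 : 0 < c₀ := by
    have : max δ 0 < 1 / 4 := max_lt hδ (by norm_num)
    linarith
  have h1 : c₀ ≤ 1 := by
    have := le_max_right δ 0
    linarith
  have h2 : c₀ ≤ 1 - 4 * δ := by
    have := le_max_left δ 0
    linarith
  set γ : ℝ := min (η / 8) 1 with hγ
  have hγ0 : 0 < γ := lt_min (by positivity) one_pos
  have hγ1 : γ ≤ 1 := min_le_right _ _
  have hγη : γ ≤ η / 8 := min_le_left _ _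
  obtain ⟨c, b, hc, hb, n₀, hn⟩ := SDX4.coreC c₀ γ (η / 8) h0 h1 hγ0 hγ1 (by positivity)
  -- large sizes are unlikely
  obtain ⟨n₁, hn₁⟩ : ∃ n₁ : ℕ, ∀ n : ℕ, n₁ ≤ n → Real.exp (-(c / 2 * n)) ≤ η / 8 := by
    have h3 : Filter.Tendsto (fun n : ℕ => Real.exp (-(c / 2 * n))) Filter.atTop
        (nhds 0) := by
      refine Real.tendsto_exp_neg_atTop_nhds_zero.comp ?_
      exact Filter.Tendsto.const_mul_atTop (by positivity) tendsto_natCast_atTop_atTop
    have h4 := h3.eventually (ge_mem_nhds (by positivity : (0 : ℝ) < η / 8))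
    exact Filter.eventually_atTop.1 h4
  refine ⟨c / 2, by positivity, max n₀ n₁, fun n hn0 => ?_⟩
  obtain ⟨m, mu, hm, hmb, hrow, hcol, hpos, hno⟩ := hn n ((le_max_left _ _).trans hn0)
  have hmpos : (0 : ℝ) < m := by exact_mod_cast hm.pos
  have hmn : m ≤ n := (Nat.le_mul_of_pos_right m hb).trans hmb
  refine ⟨m, hmn, hm, fun Ω _ p R hp hp1 hsize => ?_⟩
  by_contra hcon
  push Not at hcon
  have hchoose : (0 : ℝ) < n.choose m := by exact_mod_cast Nat.choose_pos hmn
  have h2n : (0 : ℝ) < 2 ^ n := by positivity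
  have hcardY : ((Fintype.card (Fin m → Fin b) : ℕ) : ℝ) = (b : ℝ) ^ m := by
    rw [Fintype.card_fun, Fintype.card_fin, Fintype.card_fin, Nat.cast_pow]
  have hcardX : ((Fintype.card (Fin m × Fin b → Bool) : ℕ) : ℝ) = 2 ^ (m * b) := by
    rw [Fintype.card_fun, Fintype.card_bool, Fintype.card_prod, Fintype.card_fin, Fintype.card_fin,
      Nat.cast_pow]
    norm_num
  have hYpos : (0 : ℝ) < (b : ℝ) ^ m := by
    have : (0 : ℝ) < b := by exact_mod_cast hb
    positivity
  have hXpos : (0 : ℝ) < 2 ^ (m * b) := by positivity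
  have : Nonempty (Fin m → Fin b) := ⟨fun _ => ⟨0, hb⟩⟩
  -- the embedding
  have hcard : Fintype.card (Fin m × Fin b) ≤ Fintype.card (Fin n) := by
    rw [Fintype.card_prod, Fintype.card_fin, Fintype.card_fin, Fintype.card_fin]
    exact hmb
  obtain ⟨e₀⟩ : Nonempty (Fin m × Fin b ↪ Fin n) := Function.Embedding.nonempty_of_card_le hcard
  obtain ⟨π, hπ⟩ := SDX4.avg_setC (fun S : Fin m → Fin b => gr e₀ S) (gr_card e₀)
    (fun T => ∑ ω, if (R ω).Solves δ (completeOn T) then p ω else 0)
    (∑ ω, p ω * ((((Finset.univ : Finset (Fin n)).powersetCard m).filter fun S =>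
      (R ω).Solves δ (completeOn S)).card / (n.choose m : ℝ))) (by
      rw [Finset.sum_comm, Finset.sum_mul]
      refine le_of_eq (Finset.sum_congr rfl fun ω _ => ?_)
      rw [← Finset.sum_filter, Finset.sum_const, nsmul_eq_mul]
      field_simp)
  have hgrπ : ∀ S : Fin m → Fin b,
      (gr e₀ S).map π.toEmbedding = gr (e₀.trans π.toEmbedding) S := fun S => by
    rw [gr, gr, Finset.map_map]
    rfl
  simp only [hgrπ, hcardY] at hπ
  set e : Fin m × Fin b ↪ Fin n := e₀.trans π.toEmbedding with he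
  obtain ⟨z, hz⟩ := SDX4.avg_backC e (fun x => ∑ ω, if (R ω).Represents x then p ω else 0)
    (∑ ω, p ω * (((Finset.univ : Finset (Fin n → Bool)).filter fun x =>
          (R ω).Represents x).card / (2 : ℝ) ^ n)) (by
      rw [Finset.sum_comm, Finset.sum_mul]
      refine le_of_eq (Finset.sum_congr rfl fun ω _ => ?_)
      rw [← Finset.sum_filter, Finset.sum_const, nsmul_eq_mul]
      field_simp)
  let 𝒳 : Ω → Finset (Fin m × Fin b → Bool) := fun ω => Finset.univ.filter fun x =>
    (R ω).Represents (Function.extend e x z)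
  let 𝒮 : Ω → Finset (Fin m → Fin b) := fun ω => Finset.univ.filter fun S =>
    (R ω).Solves δ (completeOn (gr e S))
  -- a good relaxation
  obtain ⟨ω, hsmall, hrect⟩ := SDX4.averageC p (fun ω => ((R ω).size : ℝ)) hp hp1
    (fun ω => Nat.cast_nonneg _) mu γ η (η / 8) (Real.exp (c * n)) (Real.exp (c / 2 * n))
    hγ0 hγη hγ1 le_rfl (Real.exp_pos _) hsize.le (by
      refine le_trans (le_of_eq ?_) (hn₁ n ((le_max_right _ _).trans hn0))
      rw [← Real.exp_sub]
      congr 1
      ring) (by
      rw [hcardX]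
      exact hrow) (by
      rw [hcardX, hcardY]
      exact hcol) (by
      rw [hcardX, hcardY]
      exact hpos) 𝒳 𝒮 (by
      rw [hcardX, hcardY]
      refine hcon.trans (add_le_add ?_ ?_)
      · refine le_of_mul_le_mul_right (hz.trans (le_of_eq ?_)) hXpos
        rw [Finset.sum_comm, Finset.sum_mul]
        refine Finset.sum_congr rfl fun ω _ => ?_
        rw [← Finset.sum_filter, Finset.sum_const, nsmul_eq_mul]
        field_simp
        exact mul_comm _ _
      · refine le_of_mul_le_mul_right (hπ.trans (le_of_eq ?_)) hYpos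
        rw [Finset.sum_comm, Finset.sum_mul]
        refine Finset.sum_congr rfl fun ω _ => ?_
        rw [← Finset.sum_filter, Finset.sum_const, nsmul_eq_mul]
        field_simp
        exact mul_comm _ _)
  rw [hcardX, hcardY] at hrect
  have hrep : ∀ x ∈ 𝒳 ω, ∃ q ∈ (R ω).feasible, ∀ G, (R ω).obj G q
      = cutVal G (Function.extend e x z) := fun x hx => (Finset.mem_filter.1 hx).2
  let pt : (Fin m × Fin b → Bool) →
      (Fin (R ω).free → ℝ) × Matrix (Fin (R ω).size) (Fin (R ω).size) ℝ :=
    fun x => if h : x ∈ 𝒳 ω then (hrep x h).choose else 0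
  have hpt : ∀ x ∈ 𝒳 ω, pt x ∈ (R ω).feasible ∧
      ∀ G, (R ω).obj G (pt x) = cutVal G (Function.extend e x z) := by
    intro x hx
    have := (hrep x hx).choose_spec
    simp only [pt, hx, dif_pos]
    exact this
  let ℓ : (Fin m → Fin b) →
      ((Fin (R ω).free → ℝ) × Matrix (Fin (R ω).size) (Fin (R ω).size) ℝ) →ᵃ[ℝ] ℝ :=
    fun S => AffineMap.const ℝ _ ((m : ℝ) ^ 2) - (4 : ℝ) • (R ω).obj (completeOn (gr e S))
  have hℓ : ∀ S q, ℓ S q = (m : ℝ) ^ 2 - 4 * (R ω).obj (completeOn (gr e S)) q := fun S q => rfl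
  refine hno (R ω).size (Fin (R ω).free → ℝ) (R ω).space (𝒳 ω) (𝒮 ω) pt ℓ hsmall hrect
    (fun x hx => (hpt x hx).1) (fun S _ x hx => ?_) (fun S hS q hq hq2 => ?_)
  · rw [hℓ, (hpt x hx).2, cut_completeOn, gr_card, gr_sum]
    ring
  · obtain ⟨x, hx⟩ := (Finset.mem_filter.1 hS).2 q ⟨hq, hq2⟩
    have e1 := cut_completeOn (gr e S) x
    rw [gr_card] at e1
    have e2 : 1 ≤ (∑ i ∈ gr e S, sg (x i)) ^ 2 := by
      have : ∑ i ∈ gr e S, sg (x i) = ssum (fun j => x (e (j, S j))) := by
        rw [gr, Finset.sum_map, ssum]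
        rfl
      rw [this, ← sq_abs]
      exact one_le_pow₀ (ssum_abs hm _)
    rw [hℓ]
    linarith

end Pool.Agent.Results.MP_b6562f_lc.SemidefiniteRelaxations
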